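import Pool.Agent.helper14.NR.E12e.PN3

/-!
Generated: certificates.
-/

namespace Pool.Agent.helper14.NR.E12e

open Pool.Agent.helper31.IA (Z)
open Pool.Agent.helper31.IX (Op XOps runX Cov CovD cov_split covD_split)
open Pool.Agent.helper31.IC (TD)
open Pool.Agent.helper63.RG (reloc)
open Pool.Agent.helper63.NF hiding TD
open Pool.Agent.helper14.CF (xE covD_E)
open Pool.Agent.helper14.NR (share)

mutual
theorem A3_c0_t5 : CovD 1 gA3 [(59556233216, 4581490688), (137438953472, 137438953472), (2748779069440, 2748779069440)] :=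
  covD_E kA3_eq (.n 2 (.n 2 (.n 2 (.l 0) (.l 0)) (.n 2 (.l 0) (.l 0))) (.n 2 (.n 2 (.l 0) (.l 0)) (.n 0 (.l 0) (.l 0))))
    [(59556233216, 4581490688), (137438953472, 137438953472), (2748779069440, 2748779069440)] rfl (by decide +kernel)
theorem A3_c0_t6 : CovD 1 gA3 [(59556233216, 4581490688), (137438953472, 137438953472), (8246337208320, 2748779069440)] :=
  covD_E kA3_eq (.n 0 (.n 2 (.n 2 (.l 0) (.l 0)) (.n 2 (.n 2 (.l 0) (.l 1)) (.l 1))) (.n 2 (.n 1 (.l 0) (.l 0)) (.n 2 (.l 0) (.l 0))))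
    [(59556233216, 4581490688), (137438953472, 137438953472), (8246337208320, 2748779069440)] rfl (by decide +kernel)
end

mutual
theorem A3_c0_t7 : CovD 1 gA3 [(59556233216, 4581490688), (412316860416, 137438953472), (5497558138880, 5497558138880)] :=
  covD_E kA3_eq (.n 2 (.n 2 (.n 2 (.n 2 (.l 0) (.l 0)) (.n 0 (.l 0) (.l 0))) (.n 0 (.n 2 (.l 0) (.l 0)) (.n 2 (.l 0) (.l 0)))) (.n 0 (.n 2 (.n 1 (.l 0) (.l 0)) (.n 0 (.l 0) (.l 0))) (.n 2 (.n 1 (.l 0) (.l 0)) (.l 0))))
    [(59556233216, 4581490688), (412316860416, 137438953472), (5497558138880, 5497558138880)] rfl (by decide +kernel)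
theorem A3_c0_t9 : CovD 1 gA3 [(59556233216, 4581490688), (687194767360, 137438953472), (5497558138880, 5497558138880)] :=
  covD_E kA3_eq (.n 0 (.n 2 (.n 2 (.n 2 (.l 0) (.l 0)) (.n 2 (.l 0) (.l 0))) (.n 2 (.n 0 (.l 0) (.l 0)) (.l 0))) (.n 2 (.n 2 (.n 2 (.l 0) (.l 0)) (.n 2 (.l 0) (.l 0))) (.n 2 (.n 0 (.l 0) (.l 0)) (.l 0))))
    [(59556233216, 4581490688), (687194767360, 137438953472), (5497558138880, 5497558138880)] rfl (by decide +kernel)
end

mutual
theorem A3_c0_t10 : CovD 1 gA3 [(59556233216, 4581490688), (962072674304, 137438953472), (5497558138880, 5497558138880)] :=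
  covD_E kA3_eq (.n 2 (.n 2 (.n 2 (.l 0) (.n 0 (.l 0) (.l 0))) (.n 2 (.n 0 (.l 0) (.l 0)) (.l 0))) (.n 2 (.n 2 (.l 0) (.l 0)) (.n 0 (.l 0) (.l 0))))
    [(59556233216, 4581490688), (962072674304, 137438953472), (5497558138880, 5497558138880)] rfl (by decide +kernel)
theorem A3_c0_t13 : CovD 1 gA3 [(68719214592, 4581490688), (137438953472, 137438953472), (5497558138880, 5497558138880)] :=
  covD_E kA3_eq (.n 2 (.n 2 (.n 2 (.n 2 (.l 0) (.l 0)) (.n 2 (.l 0) (.l 0))) (.n 0 (.n 2 (.l 0) (.l 0)) (.n 2 (.l 0) (.l 0)))) (.n 0 (.n 2 (.n 1 (.l 0) (.l 0)) (.l 0)) (.n 2 (.n 1 (.l 0) (.l 0)) (.l 0))))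
    [(68719214592, 4581490688), (137438953472, 137438953472), (5497558138880, 5497558138880)] rfl (by decide +kernel)
end

mutual
theorem A3_c0_t14 : CovD 1 gA3 [(68719214592, 4581490688), (412316860416, 137438953472), (5497558138880, 5497558138880)] :=
  covD_E kA3_eq (.n 2 (.n 2 (.n 0 (.n 2 (.l 0) (.l 0)) (.n 2 (.l 0) (.l 0))) (.n 2 (.n 0 (.l 0) (.l 0)) (.l 0))) (.n 2 (.n 2 (.l 0) (.l 0)) (.n 0 (.l 0) (.l 0))))
    [(68719214592, 4581490688), (412316860416, 137438953472), (5497558138880, 5497558138880)] rfl (by decide +kernel)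
theorem A3_c0_t16 : CovD 1 gA3 [(68719214592, 4581490688), (687194767360, 137438953472), (5497558138880, 5497558138880)] :=
  covD_E kA3_eq (.n 2 (.n 2 (.n 0 (.n 2 (.l 0) (.l 0)) (.n 2 (.l 0) (.l 0))) (.n 2 (.n 0 (.l 0) (.l 0)) (.l 0))) (.n 2 (.n 2 (.l 0) (.l 0)) (.n 0 (.l 0) (.l 0))))
    [(68719214592, 4581490688), (687194767360, 137438953472), (5497558138880, 5497558138880)] rfl (by decide +kernel)
end

mutual
theorem A3_c0_t17 : CovD 1 gA3 [(68719214592, 4581490688), (962072674304, 137438953472), (5497558138880, 5497558138880)] :=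
  covD_E kA3_eq (.n 2 (.n 2 (.n 2 (.l 0) (.l 0)) (.n 2 (.l 0) (.l 0))) (.n 0 (.n 2 (.l 0) (.l 0)) (.n 2 (.l 0) (.l 0))))
    [(68719214592, 4581490688), (962072674304, 137438953472), (5497558138880, 5497558138880)] rfl (by decide +kernel)
theorem A3_c0_t21 : CovD 1 gA3 [(77882195968, 4581490688), (137438953472, 137438953472), (5497558138880, 5497558138880)] :=
  covD_E kA3_eq (.n 2 (.n 2 (.n 2 (.n 2 (.l 0) (.l 0)) (.n 2 (.l 0) (.l 0))) (.n 2 (.n 0 (.l 0) (.l 0)) (.l 0))) (.n 2 (.n 2 (.l 0) (.l 0)) (.n 0 (.l 0) (.l 0))))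
    [(77882195968, 4581490688), (137438953472, 137438953472), (5497558138880, 5497558138880)] rfl (by decide +kernel)
end

mutual
theorem A3_c0_t22 : CovD 1 gA3 [(77882195968, 4581490688), (412316860416, 137438953472), (5497558138880, 5497558138880)] :=
  covD_E kA3_eq (.n 2 (.n 2 (.n 0 (.n 2 (.l 0) (.l 0)) (.n 2 (.l 0) (.l 0))) (.n 2 (.n 0 (.l 0) (.l 0)) (.l 0))) (.n 2 (.n 2 (.l 0) (.l 0)) (.n 0 (.l 0) (.l 0))))
    [(77882195968, 4581490688), (412316860416, 137438953472), (5497558138880, 5497558138880)] rfl (by decide +kernel)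
theorem A3_c0_t24 : CovD 1 gA3 [(77882195968, 4581490688), (824633720832, 274877906944), (2748779069440, 2748779069440)] :=
  covD_E kA3_eq (.n 2 (.n 2 (.n 2 (.l 0) (.l 0)) (.n 1 (.n 0 (.l 0) (.l 0)) (.l 0))) (.n 1 (.n 2 (.l 0) (.l 0)) (.n 2 (.l 0) (.l 0))))
    [(77882195968, 4581490688), (824633720832, 274877906944), (2748779069440, 2748779069440)] rfl (by decide +kernel)
end

mutual
theorem A3_c0_t25 : CovD 1 gA3 [(77882195968, 4581490688), (824633720832, 274877906944), (8246337208320, 2748779069440)] :=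
  covD_E kA3_eq (.n 0 (.n 2 (.n 2 (.l 0) (.l 0)) (.n 1 (.l 0) (.l 0))) (.n 1 (.n 2 (.l 0) (.l 0)) (.n 2 (.l 0) (.l 0))))
    [(77882195968, 4581490688), (824633720832, 274877906944), (8246337208320, 2748779069440)] rfl (by decide +kernel)
theorem A3_c0_t28 : CovD 1 gA3 [(87045177344, 4581490688), (274877906944, 274877906944), (2748779069440, 2748779069440)] :=
  covD_E kA3_eq (.n 2 (.n 2 (.n 2 (.l 0) (.n 0 (.l 0) (.l 0))) (.n 0 (.n 1 (.l 0) (.l 0)) (.n 1 (.l 0) (.l 0)))) (.n 1 (.n 2 (.n 0 (.l 0) (.l 0)) (.l 0)) (.n 2 (.l 0) (.l 0))))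
    [(87045177344, 4581490688), (274877906944, 274877906944), (2748779069440, 2748779069440)] rfl (by decide +kernel)
end

mutual
theorem A3_c0_t29 : CovD 1 gA3 [(87045177344, 4581490688), (274877906944, 274877906944), (8246337208320, 2748779069440)] :=
  covD_E kA3_eq (.n 0 (.n 2 (.n 2 (.l 0) (.l 0)) (.n 0 (.l 0) (.l 0))) (.n 2 (.n 2 (.l 0) (.l 0)) (.n 0 (.l 0) (.l 0))))
    [(87045177344, 4581490688), (274877906944, 274877906944), (8246337208320, 2748779069440)] rfl (by decide +kernel)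
theorem A3_c0_t30 : CovD 1 gA3 [(87045177344, 4581490688), (824633720832, 274877906944), (5497558138880, 5497558138880)] :=
  covD_E kA3_eq (.n 1 (.n 2 (.n 2 (.n 2 (.l 0) (.l 0)) (.n 2 (.l 0) (.l 0))) (.n 0 (.n 2 (.l 0) (.l 0)) (.n 2 (.l 0) (.l 0)))) (.n 2 (.n 2 (.n 2 (.l 0) (.l 0)) (.n 2 (.l 0) (.l 0))) (.n 0 (.n 2 (.l 0) (.l 0)) (.n 2 (.l 0) (.l 0)))))
    [(87045177344, 4581490688), (824633720832, 274877906944), (5497558138880, 5497558138880)] rfl (by decide +kernel)
end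

mutual
theorem B3_c0_t3 : CovD 1 gB3 [(59556233216, 4581490688), (274877906944, 274877906944), (54975791104, 54975791104)] :=
  covD_E kB3_eq (.n 2 (.n 2 (.n 2 (.l 1) (.l 1)) (.n 2 (.l 1) (.l 1))) (.n 2 (.n 2 (.l 1) (.l 1)) (.n 0 (.n 1 (.l 1) (.l 1)) (.n 1 (.l 1) (.l 0)))))
    [(59556233216, 4581490688), (274877906944, 274877906944), (54975791104, 54975791104)] rfl (by decide +kernel)
theorem B3_c0_t4 : CovD 1 gB3 [(59556233216, 4581490688), (824633720832, 274877906944), (54975791104, 54975791104)] :=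
  covD_E kB3_eq (.n 2 (.n 2 (.n 2 (.l 1) (.l 1)) (.n 2 (.l 1) (.l 1))) (.n 0 (.n 2 (.n 2 (.l 1) (.l 1)) (.n 1 (.l 0) (.l 0))) (.n 1 (.n 2 (.l 0) (.l 0)) (.n 2 (.l 0) (.l 0)))))
    [(59556233216, 4581490688), (824633720832, 274877906944), (54975791104, 54975791104)] rfl (by decide +kernel)
end

mutual
theorem B3_c0_t6 : CovD 1 gB3 [(68719214592, 4581490688), (274877906944, 274877906944), (54975791104, 54975791104)] :=
  covD_E kB3_eq (.n 2 (.n 2 (.n 0 (.l 1) (.l 1)) (.n 2 (.l 1) (.l 1))) (.n 2 (.n 2 (.l 1) (.n 0 (.l 1) (.l 1))) (.n 0 (.n 1 (.l 0) (.l 0)) (.n 1 (.l 0) (.l 0)))))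
    [(68719214592, 4581490688), (274877906944, 274877906944), (54975791104, 54975791104)] rfl (by decide +kernel)
theorem B3_c0_t7 : CovD 1 gB3 [(68719214592, 4581490688), (824633720832, 274877906944), (54975791104, 54975791104)] :=
  covD_E kB3_eq (.n 2 (.n 2 (.n 2 (.l 1) (.l 1)) (.n 0 (.n 2 (.l 1) (.l 1)) (.n 1 (.l 0) (.l 0)))) (.n 0 (.n 1 (.n 2 (.l 0) (.l 0)) (.n 2 (.l 0) (.l 0))) (.n 1 (.n 2 (.l 0) (.l 0)) (.n 2 (.l 0) (.l 0)))))
    [(68719214592, 4581490688), (824633720832, 274877906944), (54975791104, 54975791104)] rfl (by decide +kernel)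
end

mutual
theorem B3_c0_t10 : CovD 1 gB3 [(77882195968, 4581490688), (274877906944, 274877906944), (54975791104, 54975791104)] :=
  covD_E kB3_eq (.n 2 (.n 2 (.n 2 (.l 1) (.l 1)) (.n 2 (.l 1) (.n 0 (.l 1) (.l 0)))) (.n 1 (.n 0 (.n 2 (.l 0) (.l 0)) (.n 2 (.l 0) (.l 0))) (.n 2 (.n 0 (.l 0) (.l 0)) (.l 0))))
    [(77882195968, 4581490688), (274877906944, 274877906944), (54975791104, 54975791104)] rfl (by decide +kernel)
theorem B3_c0_t11 : CovD 1 gB3 [(77882195968, 4581490688), (824633720832, 274877906944), (54975791104, 54975791104)] :=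
  covD_E kB3_eq (.n 1 (.n 2 (.n 0 (.n 2 (.l 0) (.l 0)) (.n 2 (.l 0) (.l 0))) (.n 2 (.n 0 (.l 0) (.l 0)) (.l 0))) (.n 2 (.n 0 (.n 2 (.l 0) (.l 0)) (.n 2 (.l 0) (.l 0))) (.n 2 (.n 0 (.l 0) (.l 0)) (.l 0))))
    [(77882195968, 4581490688), (824633720832, 274877906944), (54975791104, 54975791104)] rfl (by decide +kernel)
end

mutual
theorem B3_c0_t12 : CovD 1 gB3 [(87045177344, 4581490688), (549755813888, 549755813888), (54975791104, 54975791104)] :=
  covD_E kB3_eq (.n 1 (.n 1 (.n 2 (.n 2 (.l 0) (.l 0)) (.n 2 (.l 0) (.l 0))) (.n 2 (.n 2 (.l 0) (.l 0)) (.n 2 (.l 0) (.l 0)))) (.n 1 (.n 2 (.n 2 (.l 0) (.l 0)) (.n 2 (.l 0) (.l 0))) (.n 2 (.n 2 (.l 0) (.l 0)) (.n 2 (.l 0) (.l 0)))))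
    [(87045177344, 4581490688), (549755813888, 549755813888), (54975791104, 54975791104)] rfl (by decide +kernel)
theorem D3_c0_t3 : CovD 1 gD3 [(59556233216, 4581490688), (274877906944, 274877906944), (863554764800, 863554764800)] :=
  covD_E kD3_eq (.n 1 (.n 2 (.n 1 (.n 2 (.l 0) (.l 0)) (.n 2 (.l 0) (.l 0))) (.n 2 (.n 1 (.l 0) (.l 0)) (.n 2 (.l 0) (.l 0)))) (.n 2 (.n 1 (.n 2 (.l 0) (.l 0)) (.n 2 (.l 0) (.l 0))) (.n 2 (.n 2 (.l 0) (.l 0)) (.n 2 (.l 0) (.l 0)))))
    [(59556233216, 4581490688), (274877906944, 274877906944), (863554764800, 863554764800)] rfl (by decide +kernel)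
end

mutual
theorem D3_c0_t5 : CovD 1 gD3 [(59556233216, 4581490688), (687194767360, 137438953472), (863554764800, 863554764800)] :=
  covD_E kD3_eq (.n 2 (.n 2 (.n 0 (.l 0) (.l 0)) (.n 2 (.l 0) (.l 0))) (.n 2 (.n 2 (.l 0) (.l 0)) (.n 2 (.l 0) (.l 0))))
    [(59556233216, 4581490688), (687194767360, 137438953472), (863554764800, 863554764800)] rfl (by decide +kernel)
theorem D3_c0_t6 : CovD 1 gD3 [(59556233216, 4581490688), (962072674304, 137438953472), (863554764800, 863554764800)] :=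
  covD_E kD3_eq (.n 2 (.n 2 (.n 0 (.l 0) (.l 0)) (.n 2 (.l 0) (.l 0))) (.n 2 (.n 2 (.l 0) (.l 0)) (.n 2 (.l 0) (.n 0 (.l 0) (.l 0)))))
    [(59556233216, 4581490688), (962072674304, 137438953472), (863554764800, 863554764800)] rfl (by decide +kernel)
end

mutual
theorem D3_c0_t8 : CovD 1 gD3 [(68719214592, 4581490688), (274877906944, 274877906944), (863554764800, 863554764800)] :=
  covD_E kD3_eq (.n 1 (.n 2 (.n 2 (.l 0) (.n 0 (.l 0) (.l 0))) (.n 2 (.n 0 (.l 0) (.l 0)) (.n 2 (.l 0) (.l 0)))) (.n 2 (.n 0 (.n 2 (.l 0) (.l 0)) (.n 2 (.l 0) (.l 0))) (.n 2 (.n 1 (.l 0) (.l 0)) (.n 2 (.l 0) (.l 0)))))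
    [(68719214592, 4581490688), (274877906944, 274877906944), (863554764800, 863554764800)] rfl (by decide +kernel)
theorem D3_c0_t9 : CovD 1 gD3 [(68719214592, 4581490688), (824633720832, 274877906944), (863554764800, 863554764800)] :=
  covD_E kD3_eq (.n 1 (.n 2 (.n 1 (.n 2 (.l 0) (.l 0)) (.n 2 (.l 0) (.l 0))) (.n 2 (.n 2 (.l 0) (.l 0)) (.n 2 (.l 0) (.l 0)))) (.n 2 (.n 2 (.n 0 (.l 0) (.l 0)) (.n 2 (.l 0) (.l 0))) (.n 2 (.n 2 (.l 0) (.l 0)) (.n 2 (.l 0) (.l 0)))))
    [(68719214592, 4581490688), (824633720832, 274877906944), (863554764800, 863554764800)] rfl (by decide +kernel)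
end

mutual
theorem D3_c0_t12 : CovD 1 gD3 [(77882195968, 4581490688), (274877906944, 274877906944), (863554764800, 863554764800)] :=
  covD_E kD3_eq (.n 2 (.n 2 (.n 1 (.l 0) (.l 0)) (.n 2 (.l 0) (.n 0 (.l 0) (.l 0)))) (.n 0 (.n 2 (.n 1 (.l 0) (.l 0)) (.n 2 (.l 0) (.l 0))) (.n 2 (.n 1 (.l 0) (.l 0)) (.n 2 (.l 0) (.l 0)))))
    [(77882195968, 4581490688), (274877906944, 274877906944), (863554764800, 863554764800)] rfl (by decide +kernel)
theorem D3_c0_t13 : CovD 1 gD3 [(77882195968, 4581490688), (824633720832, 274877906944), (863554764800, 863554764800)] :=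
  covD_E kD3_eq (.n 2 (.n 2 (.n 2 (.l 0) (.n 0 (.l 0) (.l 0))) (.n 0 (.n 1 (.l 0) (.l 0)) (.n 1 (.l 0) (.l 0)))) (.n 1 (.n 2 (.n 1 (.l 0) (.l 0)) (.n 2 (.l 0) (.l 0))) (.n 2 (.n 2 (.l 0) (.l 0)) (.n 2 (.l 0) (.l 0)))))
    [(77882195968, 4581490688), (824633720832, 274877906944), (863554764800, 863554764800)] rfl (by decide +kernel)
end

mutual
theorem D3_c0_t15 : CovD 1 gD3 [(87045177344, 4581490688), (274877906944, 274877906944), (863554764800, 863554764800)] :=
  covD_E kD3_eq (.n 2 (.n 2 (.n 1 (.l 0) (.l 0)) (.n 2 (.l 0) (.l 0))) (.n 2 (.n 2 (.l 0) (.l 0)) (.n 2 (.l 0) (.n 0 (.l 0) (.l 0)))))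
    [(87045177344, 4581490688), (274877906944, 274877906944), (863554764800, 863554764800)] rfl (by decide +kernel)
theorem D3_c0_t16 : CovD 1 gD3 [(87045177344, 4581490688), (824633720832, 274877906944), (863554764800, 863554764800)] :=
  covD_E kD3_eq (.n 2 (.n 2 (.n 1 (.l 0) (.l 0)) (.n 2 (.l 0) (.n 0 (.l 0) (.l 0)))) (.n 0 (.n 2 (.n 1 (.l 0) (.l 0)) (.n 2 (.l 0) (.l 0))) (.n 2 (.n 1 (.l 0) (.l 0)) (.n 2 (.l 0) (.l 0)))))
    [(87045177344, 4581490688), (824633720832, 274877906944), (863554764800, 863554764800)] rfl (by decide +kernel)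
end

mutual
theorem E3_c0_t3 : CovD 1 gE3 [(59556233216, 4581490688), (274877906944, 274877906944), (863554764800, 863554764800)] :=
  covD_E kE3_eq (.n 1 (.n 2 (.n 2 (.l 1) (.n 0 (.l 1) (.l 1))) (.n 2 (.n 2 (.n 0 (.l 0) (.l 0)) (.l 0)) (.n 2 (.l 0) (.l 0)))) (.n 2 (.n 2 (.l 1) (.l 1)) (.n 2 (.n 2 (.n 0 (.l 0) (.l 1)) (.l 0)) (.n 2 (.l 0) (.l 0)))))
    [(59556233216, 4581490688), (274877906944, 274877906944), (863554764800, 863554764800)] rfl (by decide +kernel)
theorem E3_c0_t4 : CovD 1 gE3 [(68719214592, 4581490688), (274877906944, 274877906944), (863554764800, 863554764800)] :=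
  covD_E kE3_eq (.n 2 (.n 2 (.l 1) (.n 0 (.l 1) (.l 1))) (.n 2 (.n 2 (.l 1) (.n 1 (.l 0) (.n 0 (.l 0) (.l 0)))) (.n 1 (.n 2 (.l 0) (.l 0)) (.n 2 (.l 0) (.l 0)))))
    [(68719214592, 4581490688), (274877906944, 274877906944), (863554764800, 863554764800)] rfl (by decide +kernel)
end

mutual
theorem E3_c0_t6 : CovD 1 gE3 [(64137723904, 9162981376), (824633720832, 274877906944), (431777382400, 431777382400)] :=
  covD_E kE3_eq (.n 2 (.n 2 (.l 1) (.l 1)) (.n 2 (.l 1) (.n 0 (.l 1) (.l 1))))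
    [(64137723904, 9162981376), (824633720832, 274877906944), (431777382400, 431777382400)] rfl (by decide +kernel)
theorem E3_c0_t8 : CovD 1 gE3 [(59556233216, 4581490688), (824633720832, 274877906944), (1295332147200, 431777382400)] :=
  covD_E kE3_eq (.n 1 (.n 2 (.n 2 (.l 1) (.n 0 (.l 0) (.l 0))) (.n 2 (.n 0 (.l 0) (.l 0)) (.l 0))) (.n 2 (.n 2 (.l 1) (.n 0 (.l 0) (.l 0))) (.n 0 (.n 2 (.l 0) (.l 0)) (.n 2 (.l 0) (.l 0)))))
    [(59556233216, 4581490688), (824633720832, 274877906944), (1295332147200, 431777382400)] rfl (by decide +kernel)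
end

mutual
theorem E3_c0_t9 : CovD 1 gE3 [(68719214592, 4581490688), (824633720832, 274877906944), (1295332147200, 431777382400)] :=
  covD_E kE3_eq (.n 2 (.n 2 (.l 1) (.l 1)) (.n 1 (.n 2 (.l 0) (.l 0)) (.n 2 (.n 0 (.l 0) (.l 0)) (.l 0))))
    [(68719214592, 4581490688), (824633720832, 274877906944), (1295332147200, 431777382400)] rfl (by decide +kernel)
theorem E3_c0_t11 : CovD 1 gE3 [(82463686656, 9162981376), (274877906944, 274877906944), (863554764800, 863554764800)] :=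
  covD_E kE3_eq (.n 2 (.n 2 (.l 1) (.l 1)) (.n 0 (.n 1 (.n 2 (.l 1) (.n 2 (.l 0) (.l 0))) (.n 2 (.l 1) (.n 2 (.l 0) (.l 0)))) (.n 2 (.l 1) (.n 2 (.l 1) (.n 0 (.l 0) (.l 0))))))
    [(82463686656, 9162981376), (274877906944, 274877906944), (863554764800, 863554764800)] rfl (by decide +kernel)
end

theorem E3_c0_t12 : CovD 1 gE3 [(82463686656, 9162981376), (824633720832, 274877906944), (863554764800, 863554764800)] :=
  covD_E kE3_eq (.n 2 (.n 2 (.n 2 (.l 1) (.l 1)) (.n 1 (.l 1) (.l 1))) (.n 2 (.n 1 (.l 1) (.l 1)) (.n 0 (.n 2 (.l 1) (.n 1 (.l 0) (.l 0))) (.n 1 (.l 1) (.l 1)))))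
    [(82463686656, 9162981376), (824633720832, 274877906944), (863554764800, 863554764800)] rfl (by decide +kernel)

theorem A3_c0_t4 : CovD 1 gA3 [(59556233216, 4581490688), (137438953472, 137438953472), (5497558138880, 5497558138880)] :=
  covD_split 2 (by decide +kernel) A3_c0_t5 A3_c0_t6

theorem A3_c0_t3 : CovD 1 gA3 [(59556233216, 4581490688), (274877906944, 274877906944), (5497558138880, 5497558138880)] :=
  covD_split 1 (by decide +kernel) A3_c0_t4 A3_c0_t7

theorem A3_c0_t8 : CovD 1 gA3 [(59556233216, 4581490688), (824633720832, 274877906944), (5497558138880, 5497558138880)] :=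
  covD_split 1 (by decide +kernel) A3_c0_t9 A3_c0_t10

theorem A3_c0_t2 : CovD 1 gA3 [(59556233216, 4581490688), (549755813888, 549755813888), (5497558138880, 5497558138880)] :=
  covD_split 1 (by decide +kernel) A3_c0_t3 A3_c0_t8

theorem A3_c0_t12 : CovD 1 gA3 [(68719214592, 4581490688), (274877906944, 274877906944), (5497558138880, 5497558138880)] :=
  covD_split 1 (by decide +kernel) A3_c0_t13 A3_c0_t14

theorem A3_c0_t15 : CovD 1 gA3 [(68719214592, 4581490688), (824633720832, 274877906944), (5497558138880, 5497558138880)] :=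
  covD_split 1 (by decide +kernel) A3_c0_t16 A3_c0_t17

theorem A3_c0_t11 : CovD 1 gA3 [(68719214592, 4581490688), (549755813888, 549755813888), (5497558138880, 5497558138880)] :=
  covD_split 1 (by decide +kernel) A3_c0_t12 A3_c0_t15

theorem A3_c0_t1 : CovD 1 gA3 [(64137723904, 9162981376), (549755813888, 549755813888), (5497558138880, 5497558138880)] :=
  covD_split 0 (by decide +kernel) A3_c0_t2 A3_c0_t11

theorem A3_c0_t20 : CovD 1 gA3 [(77882195968, 4581490688), (274877906944, 274877906944), (5497558138880, 5497558138880)] :=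
  covD_split 1 (by decide +kernel) A3_c0_t21 A3_c0_t22

theorem A3_c0_t23 : CovD 1 gA3 [(77882195968, 4581490688), (824633720832, 274877906944), (5497558138880, 5497558138880)] :=
  covD_split 2 (by decide +kernel) A3_c0_t24 A3_c0_t25

theorem A3_c0_t19 : CovD 1 gA3 [(77882195968, 4581490688), (549755813888, 549755813888), (5497558138880, 5497558138880)] :=
  covD_split 1 (by decide +kernel) A3_c0_t20 A3_c0_t23

theorem A3_c0_t27 : CovD 1 gA3 [(87045177344, 4581490688), (274877906944, 274877906944), (5497558138880, 5497558138880)] :=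
  covD_split 2 (by decide +kernel) A3_c0_t28 A3_c0_t29

theorem A3_c0_t26 : CovD 1 gA3 [(87045177344, 4581490688), (549755813888, 549755813888), (5497558138880, 5497558138880)] :=
  covD_split 1 (by decide +kernel) A3_c0_t27 A3_c0_t30

theorem A3_c0_t18 : CovD 1 gA3 [(82463686656, 9162981376), (549755813888, 549755813888), (5497558138880, 5497558138880)] :=
  covD_split 0 (by decide +kernel) A3_c0_t19 A3_c0_t26

theorem A3_c0 : CovD 1 gA3 [(73300705280, 18325962752), (549755813888, 549755813888), (5497558138880, 5497558138880)] :=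
  covD_split 0 (by decide +kernel) A3_c0_t1 A3_c0_t18

theorem B3_c0_t2 : CovD 1 gB3 [(59556233216, 4581490688), (549755813888, 549755813888), (54975791104, 54975791104)] :=
  covD_split 1 (by decide +kernel) B3_c0_t3 B3_c0_t4

theorem B3_c0_t5 : CovD 1 gB3 [(68719214592, 4581490688), (549755813888, 549755813888), (54975791104, 54975791104)] :=
  covD_split 1 (by decide +kernel) B3_c0_t6 B3_c0_t7

theorem B3_c0_t1 : CovD 1 gB3 [(64137723904, 9162981376), (549755813888, 549755813888), (54975791104, 54975791104)] :=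
  covD_split 0 (by decide +kernel) B3_c0_t2 B3_c0_t5

theorem B3_c0_t9 : CovD 1 gB3 [(77882195968, 4581490688), (549755813888, 549755813888), (54975791104, 54975791104)] :=
  covD_split 1 (by decide +kernel) B3_c0_t10 B3_c0_t11

theorem B3_c0_t8 : CovD 1 gB3 [(82463686656, 9162981376), (549755813888, 549755813888), (54975791104, 54975791104)] :=
  covD_split 0 (by decide +kernel) B3_c0_t9 B3_c0_t12

theorem B3_c0 : CovD 1 gB3 [(73300705280, 18325962752), (549755813888, 549755813888), (54975791104, 54975791104)] :=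
  covD_split 0 (by decide +kernel) B3_c0_t1 B3_c0_t8

theorem D3_c0_t4 : CovD 1 gD3 [(59556233216, 4581490688), (824633720832, 274877906944), (863554764800, 863554764800)] :=
  covD_split 1 (by decide +kernel) D3_c0_t5 D3_c0_t6

theorem D3_c0_t2 : CovD 1 gD3 [(59556233216, 4581490688), (549755813888, 549755813888), (863554764800, 863554764800)] :=
  covD_split 1 (by decide +kernel) D3_c0_t3 D3_c0_t4

theorem D3_c0_t7 : CovD 1 gD3 [(68719214592, 4581490688), (549755813888, 549755813888), (863554764800, 863554764800)] :=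
  covD_split 1 (by decide +kernel) D3_c0_t8 D3_c0_t9

theorem D3_c0_t1 : CovD 1 gD3 [(64137723904, 9162981376), (549755813888, 549755813888), (863554764800, 863554764800)] :=
  covD_split 0 (by decide +kernel) D3_c0_t2 D3_c0_t7

theorem D3_c0_t11 : CovD 1 gD3 [(77882195968, 4581490688), (549755813888, 549755813888), (863554764800, 863554764800)] :=
  covD_split 1 (by decide +kernel) D3_c0_t12 D3_c0_t13

theorem D3_c0_t14 : CovD 1 gD3 [(87045177344, 4581490688), (549755813888, 549755813888), (863554764800, 863554764800)] :=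
  covD_split 1 (by decide +kernel) D3_c0_t15 D3_c0_t16

theorem D3_c0_t10 : CovD 1 gD3 [(82463686656, 9162981376), (549755813888, 549755813888), (863554764800, 863554764800)] :=
  covD_split 0 (by decide +kernel) D3_c0_t11 D3_c0_t14

theorem D3_c0 : CovD 1 gD3 [(73300705280, 18325962752), (549755813888, 549755813888), (863554764800, 863554764800)] :=
  covD_split 0 (by decide +kernel) D3_c0_t1 D3_c0_t10

theorem E3_c0_t2 : CovD 1 gE3 [(64137723904, 9162981376), (274877906944, 274877906944), (863554764800, 863554764800)] :=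
  covD_split 0 (by decide +kernel) E3_c0_t3 E3_c0_t4

theorem E3_c0_t7 : CovD 1 gE3 [(64137723904, 9162981376), (824633720832, 274877906944), (1295332147200, 431777382400)] :=
  covD_split 0 (by decide +kernel) E3_c0_t8 E3_c0_t9

theorem E3_c0_t5 : CovD 1 gE3 [(64137723904, 9162981376), (824633720832, 274877906944), (863554764800, 863554764800)] :=
  covD_split 2 (by decide +kernel) E3_c0_t6 E3_c0_t7

theorem E3_c0_t1 : CovD 1 gE3 [(64137723904, 9162981376), (549755813888, 549755813888), (863554764800, 863554764800)] :=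
  covD_split 1 (by decide +kernel) E3_c0_t2 E3_c0_t5

theorem E3_c0_t10 : CovD 1 gE3 [(82463686656, 9162981376), (549755813888, 549755813888), (863554764800, 863554764800)] :=
  covD_split 1 (by decide +kernel) E3_c0_t11 E3_c0_t12

theorem E3_c0 : CovD 1 gE3 [(73300705280, 18325962752), (549755813888, 549755813888), (863554764800, 863554764800)] :=
  covD_split 0 (by decide +kernel) E3_c0_t1 E3_c0_t10

end Pool.Agent.helper14.NR.E12e
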