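import Pool.Agent.helper14.NR.E12e.PN4

/-!
Generated: certificates.
-/

namespace Pool.Agent.helper14.NR.E12e

open Pool.Agent.helper31.IA (Z)
open Pool.Agent.helper31.IX (Op XOps runX Cov CovD cov_split covD_split)
open Pool.Agent.helper31.IC (TD)
open Pool.Agent.helper63.RG (reloc)
open Pool.Agent.helper63.NF hiding TD
open Pool.Agent.helper14.CF (xE covD_E)
open Pool.Agent.helper14.NR (share)

mutual
theorem A4_c0_t5 : CovD 1 gA4 [(59556233216, 4581490688), (137438953472, 137438953472), (2748779069440, 2748779069440)] :=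
  covD_E kA4_eq (.n 2 (.n 2 (.n 2 (.l 0) (.n 0 (.l 0) (.l 0))) (.n 0 (.n 1 (.l 0) (.l 0)) (.n 1 (.l 0) (.l 0)))) (.n 0 (.n 2 (.n 0 (.l 0) (.l 0)) (.l 0)) (.n 2 (.n 0 (.l 0) (.l 0)) (.l 0))))
    [(59556233216, 4581490688), (137438953472, 137438953472), (2748779069440, 2748779069440)] rfl (by decide +kernel)
theorem A4_c0_t6 : CovD 1 gA4 [(59556233216, 4581490688), (137438953472, 137438953472), (8246337208320, 2748779069440)] :=
  covD_E kA4_eq (.n 0 (.n 2 (.n 2 (.l 0) (.l 0)) (.n 0 (.l 0) (.l 0))) (.n 2 (.n 2 (.l 0) (.l 0)) (.l 0)))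
    [(59556233216, 4581490688), (137438953472, 137438953472), (8246337208320, 2748779069440)] rfl (by decide +kernel)
end

mutual
theorem A4_c0_t7 : CovD 1 gA4 [(59556233216, 4581490688), (412316860416, 137438953472), (5497558138880, 5497558138880)] :=
  covD_E kA4_eq (.n 2 (.n 2 (.n 2 (.n 2 (.l 0) (.l 0)) (.n 2 (.l 0) (.l 0))) (.n 0 (.n 2 (.l 0) (.l 0)) (.n 2 (.l 0) (.l 0)))) (.n 0 (.n 2 (.n 2 (.l 0) (.l 0)) (.l 0)) (.n 2 (.n 1 (.l 0) (.l 0)) (.l 0))))
    [(59556233216, 4581490688), (412316860416, 137438953472), (5497558138880, 5497558138880)] rfl (by decide +kernel)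
theorem A4_c0_t9 : CovD 1 gA4 [(57265487872, 2290745344), (824633720832, 274877906944), (5497558138880, 5497558138880)] :=
  covD_E kA4_eq (.n 1 (.n 2 (.n 2 (.n 2 (.l 0) (.l 0)) (.n 2 (.l 0) (.l 0))) (.n 2 (.n 1 (.l 0) (.l 0)) (.l 0))) (.n 2 (.n 2 (.n 2 (.l 0) (.l 0)) (.n 2 (.l 0) (.l 0))) (.n 2 (.n 0 (.l 0) (.l 0)) (.l 0))))
    [(57265487872, 2290745344), (824633720832, 274877906944), (5497558138880, 5497558138880)] rfl (by decide +kernel)
end

mutual
theorem A4_c0_t10 : CovD 1 gA4 [(61846978560, 2290745344), (824633720832, 274877906944), (5497558138880, 5497558138880)] :=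
  covD_E kA4_eq (.n 1 (.n 2 (.n 2 (.n 2 (.l 0) (.l 0)) (.n 2 (.l 0) (.l 0))) (.n 2 (.n 1 (.l 0) (.l 0)) (.l 0))) (.n 2 (.n 2 (.n 2 (.l 0) (.l 0)) (.n 2 (.l 0) (.l 0))) (.n 2 (.n 0 (.l 0) (.l 0)) (.l 0))))
    [(61846978560, 2290745344), (824633720832, 274877906944), (5497558138880, 5497558138880)] rfl (by decide +kernel)
theorem A4_c0_t13 : CovD 1 gA4 [(68719214592, 4581490688), (137438953472, 137438953472), (5497558138880, 5497558138880)] :=
  covD_E kA4_eq (.n 2 (.n 2 (.n 2 (.n 2 (.l 0) (.l 0)) (.n 2 (.l 0) (.l 0))) (.n 2 (.n 2 (.l 0) (.l 0)) (.n 0 (.l 0) (.l 0)))) (.n 0 (.n 2 (.n 1 (.l 0) (.l 0)) (.l 0)) (.n 2 (.n 1 (.l 0) (.l 0)) (.l 0))))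
    [(68719214592, 4581490688), (137438953472, 137438953472), (5497558138880, 5497558138880)] rfl (by decide +kernel)
end

mutual
theorem A4_c0_t14 : CovD 1 gA4 [(68719214592, 4581490688), (412316860416, 137438953472), (5497558138880, 5497558138880)] :=
  covD_E kA4_eq (.n 2 (.n 2 (.n 2 (.n 2 (.l 0) (.l 0)) (.n 0 (.l 0) (.l 0))) (.n 0 (.n 2 (.l 0) (.l 0)) (.n 2 (.l 0) (.l 0)))) (.n 2 (.n 2 (.n 0 (.l 0) (.l 0)) (.l 0)) (.n 0 (.l 0) (.l 0))))
    [(68719214592, 4581490688), (412316860416, 137438953472), (5497558138880, 5497558138880)] rfl (by decide +kernel)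
theorem A4_c0_t16 : CovD 1 gA4 [(68719214592, 4581490688), (687194767360, 137438953472), (5497558138880, 5497558138880)] :=
  covD_E kA4_eq (.n 2 (.n 0 (.n 2 (.n 2 (.l 0) (.l 0)) (.n 2 (.l 0) (.l 0))) (.n 2 (.n 2 (.l 0) (.l 0)) (.n 2 (.l 0) (.l 0)))) (.n 2 (.n 2 (.n 0 (.l 0) (.l 0)) (.l 0)) (.n 0 (.l 0) (.l 0))))
    [(68719214592, 4581490688), (687194767360, 137438953472), (5497558138880, 5497558138880)] rfl (by decide +kernel)
end

mutual
theorem A4_c0_t17 : CovD 1 gA4 [(68719214592, 4581490688), (962072674304, 137438953472), (5497558138880, 5497558138880)] :=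
  covD_E kA4_eq (.n 2 (.n 0 (.n 2 (.n 2 (.l 0) (.l 0)) (.n 2 (.l 0) (.l 0))) (.n 2 (.n 2 (.l 0) (.l 0)) (.n 2 (.l 0) (.l 0)))) (.n 2 (.n 2 (.n 0 (.l 0) (.l 0)) (.l 0)) (.n 0 (.l 0) (.l 0))))
    [(68719214592, 4581490688), (962072674304, 137438953472), (5497558138880, 5497558138880)] rfl (by decide +kernel)
theorem A4_c0_t21 : CovD 1 gA4 [(77882195968, 4581490688), (137438953472, 137438953472), (5497558138880, 5497558138880)] :=
  covD_E kA4_eq (.n 2 (.n 2 (.n 2 (.n 2 (.l 0) (.l 0)) (.n 2 (.l 0) (.l 0))) (.n 0 (.n 2 (.l 0) (.l 0)) (.n 2 (.l 0) (.l 0)))) (.n 2 (.n 2 (.l 0) (.l 0)) (.n 0 (.l 0) (.l 0))))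
    [(77882195968, 4581490688), (137438953472, 137438953472), (5497558138880, 5497558138880)] rfl (by decide +kernel)
end

mutual
theorem A4_c0_t22 : CovD 1 gA4 [(77882195968, 4581490688), (412316860416, 137438953472), (5497558138880, 5497558138880)] :=
  covD_E kA4_eq (.n 2 (.n 0 (.n 2 (.n 2 (.l 0) (.l 0)) (.n 2 (.l 0) (.l 0))) (.n 2 (.n 2 (.l 0) (.l 0)) (.n 2 (.l 0) (.l 0)))) (.n 2 (.n 2 (.l 0) (.l 0)) (.n 0 (.l 0) (.l 0))))
    [(77882195968, 4581490688), (412316860416, 137438953472), (5497558138880, 5497558138880)] rfl (by decide +kernel)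
theorem A4_c0_t24 : CovD 1 gA4 [(77882195968, 4581490688), (687194767360, 137438953472), (5497558138880, 5497558138880)] :=
  covD_E kA4_eq (.n 2 (.n 2 (.n 0 (.n 2 (.l 0) (.l 0)) (.n 2 (.l 0) (.l 0))) (.n 2 (.n 0 (.l 0) (.l 0)) (.l 0))) (.n 2 (.n 2 (.l 0) (.l 0)) (.n 0 (.l 0) (.l 0))))
    [(77882195968, 4581490688), (687194767360, 137438953472), (5497558138880, 5497558138880)] rfl (by decide +kernel)
end

mutual
theorem A4_c0_t25 : CovD 1 gA4 [(77882195968, 4581490688), (962072674304, 137438953472), (5497558138880, 5497558138880)] :=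
  covD_E kA4_eq (.n 2 (.n 2 (.n 0 (.n 2 (.l 0) (.l 0)) (.n 2 (.l 0) (.l 0))) (.n 2 (.l 0) (.l 0))) (.n 2 (.n 2 (.l 0) (.l 0)) (.n 0 (.l 0) (.l 0))))
    [(77882195968, 4581490688), (962072674304, 137438953472), (5497558138880, 5497558138880)] rfl (by decide +kernel)
theorem A4_c0_t28 : CovD 1 gA4 [(87045177344, 4581490688), (137438953472, 137438953472), (5497558138880, 5497558138880)] :=
  covD_E kA4_eq (.n 2 (.n 2 (.n 2 (.n 2 (.l 0) (.l 0)) (.n 2 (.l 0) (.l 0))) (.n 2 (.n 0 (.l 0) (.l 0)) (.l 0))) (.n 2 (.n 2 (.l 0) (.l 0)) (.n 0 (.l 0) (.l 0))))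
    [(87045177344, 4581490688), (137438953472, 137438953472), (5497558138880, 5497558138880)] rfl (by decide +kernel)
end

mutual
theorem A4_c0_t29 : CovD 1 gA4 [(87045177344, 4581490688), (412316860416, 137438953472), (5497558138880, 5497558138880)] :=
  covD_E kA4_eq (.n 2 (.n 2 (.n 0 (.n 2 (.l 0) (.l 0)) (.n 2 (.l 0) (.l 0))) (.n 2 (.n 0 (.l 0) (.l 0)) (.l 0))) (.n 2 (.n 2 (.l 0) (.l 0)) (.n 0 (.l 0) (.l 0))))
    [(87045177344, 4581490688), (412316860416, 137438953472), (5497558138880, 5497558138880)] rfl (by decide +kernel)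
theorem A4_c0_t31 : CovD 1 gA4 [(87045177344, 4581490688), (687194767360, 137438953472), (5497558138880, 5497558138880)] :=
  covD_E kA4_eq (.n 2 (.n 2 (.n 0 (.n 2 (.l 0) (.l 0)) (.n 2 (.l 0) (.l 0))) (.n 2 (.n 0 (.l 0) (.l 0)) (.l 0))) (.n 2 (.n 2 (.l 0) (.l 0)) (.n 0 (.l 0) (.l 0))))
    [(87045177344, 4581490688), (687194767360, 137438953472), (5497558138880, 5497558138880)] rfl (by decide +kernel)
end

mutual
theorem A4_c0_t32 : CovD 1 gA4 [(87045177344, 4581490688), (962072674304, 137438953472), (5497558138880, 5497558138880)] :=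
  covD_E kA4_eq (.n 2 (.n 2 (.n 0 (.n 2 (.l 0) (.l 0)) (.n 2 (.l 0) (.l 0))) (.n 2 (.l 0) (.l 0))) (.n 2 (.n 2 (.l 0) (.l 0)) (.n 0 (.l 0) (.l 0))))
    [(87045177344, 4581490688), (962072674304, 137438953472), (5497558138880, 5497558138880)] rfl (by decide +kernel)
theorem B4_c0_t4 : CovD 1 gB4 [(57265487872, 2290745344), (274877906944, 274877906944), (54975791104, 54975791104)] :=
  covD_E kB4_eq (.n 1 (.n 2 (.n 2 (.n 2 (.l 1) (.l 1)) (.n 2 (.l 1) (.l 1))) (.n 1 (.n 2 (.n 2 (.l 1) (.l 1)) (.n 2 (.l 0) (.l 0))) (.n 2 (.n 2 (.l 0) (.l 0)) (.l 0)))) (.n 2 (.n 2 (.l 0) (.l 0)) (.n 2 (.l 0) (.l 0))))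
    [(57265487872, 2290745344), (274877906944, 274877906944), (54975791104, 54975791104)] rfl (by decide +kernel)
end

mutual
theorem B4_c0_t5 : CovD 1 gB4 [(57265487872, 2290745344), (824633720832, 274877906944), (54975791104, 54975791104)] :=
  covD_E kB4_eq (.n 1 (.n 2 (.n 2 (.l 0) (.l 0)) (.n 2 (.l 0) (.l 0))) (.n 2 (.n 2 (.l 0) (.n 0 (.l 0) (.l 0))) (.n 2 (.l 0) (.l 0))))
    [(57265487872, 2290745344), (824633720832, 274877906944), (54975791104, 54975791104)] rfl (by decide +kernel)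
theorem B4_c0_t7 : CovD 1 gB4 [(61846978560, 2290745344), (274877906944, 274877906944), (54975791104, 54975791104)] :=
  covD_E kB4_eq (.n 1 (.n 2 (.n 2 (.n 2 (.l 0) (.l 0)) (.n 2 (.l 0) (.l 0))) (.n 2 (.l 0) (.l 0))) (.n 2 (.n 2 (.l 0) (.l 0)) (.n 2 (.l 0) (.l 0))))
    [(61846978560, 2290745344), (274877906944, 274877906944), (54975791104, 54975791104)] rfl (by decide +kernel)
end

mutual
theorem B4_c0_t8 : CovD 1 gB4 [(61846978560, 2290745344), (824633720832, 274877906944), (54975791104, 54975791104)] :=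
  covD_E kB4_eq (.n 1 (.n 2 (.n 2 (.l 0) (.l 0)) (.n 2 (.l 0) (.l 0))) (.n 2 (.n 2 (.l 0) (.l 0)) (.n 2 (.l 0) (.l 0))))
    [(61846978560, 2290745344), (824633720832, 274877906944), (54975791104, 54975791104)] rfl (by decide +kernel)
theorem B4_c0_t10 : CovD 1 gB4 [(66428469248, 2290745344), (549755813888, 549755813888), (54975791104, 54975791104)] :=
  covD_E kB4_eq (.n 1 (.n 1 (.n 2 (.n 2 (.l 0) (.l 0)) (.n 2 (.l 0) (.l 0))) (.n 2 (.n 2 (.l 0) (.l 0)) (.n 2 (.l 0) (.l 0)))) (.n 1 (.n 2 (.n 2 (.l 0) (.l 0)) (.n 2 (.l 0) (.l 0))) (.n 2 (.n 2 (.l 0) (.l 0)) (.n 2 (.l 0) (.l 0)))))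
    [(66428469248, 2290745344), (549755813888, 549755813888), (54975791104, 54975791104)] rfl (by decide +kernel)
end

mutual
theorem B4_c0_t11 : CovD 1 gB4 [(71009959936, 2290745344), (549755813888, 549755813888), (54975791104, 54975791104)] :=
  covD_E kB4_eq (.n 1 (.n 1 (.n 2 (.n 2 (.l 0) (.l 0)) (.n 2 (.l 0) (.l 0))) (.n 2 (.n 2 (.l 0) (.l 0)) (.n 2 (.l 0) (.l 0)))) (.n 1 (.n 2 (.n 2 (.l 0) (.l 0)) (.n 2 (.l 0) (.l 0))) (.n 2 (.n 2 (.l 0) (.l 0)) (.n 2 (.l 0) (.l 0)))))
    [(71009959936, 2290745344), (549755813888, 549755813888), (54975791104, 54975791104)] rfl (by decide +kernel)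
theorem B4_c0_t14 : CovD 1 gB4 [(77882195968, 4581490688), (274877906944, 274877906944), (54975791104, 54975791104)] :=
  covD_E kB4_eq (.n 1 (.n 2 (.n 2 (.l 0) (.l 0)) (.n 2 (.l 0) (.l 0))) (.n 2 (.n 2 (.l 0) (.l 0)) (.n 2 (.l 0) (.l 0))))
    [(77882195968, 4581490688), (274877906944, 274877906944), (54975791104, 54975791104)] rfl (by decide +kernel)
end

mutual
theorem B4_c0_t15 : CovD 1 gB4 [(77882195968, 4581490688), (824633720832, 274877906944), (54975791104, 54975791104)] :=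
  covD_E kB4_eq (.n 1 (.n 2 (.n 2 (.l 0) (.l 0)) (.n 2 (.l 0) (.l 0))) (.n 2 (.n 2 (.l 0) (.n 0 (.l 0) (.l 0))) (.n 2 (.l 0) (.l 0))))
    [(77882195968, 4581490688), (824633720832, 274877906944), (54975791104, 54975791104)] rfl (by decide +kernel)
theorem B4_c0_t16 : CovD 1 gB4 [(87045177344, 4581490688), (549755813888, 549755813888), (54975791104, 54975791104)] :=
  covD_E kB4_eq (.n 1 (.n 1 (.n 2 (.n 2 (.l 0) (.l 0)) (.n 2 (.l 0) (.l 0))) (.n 2 (.n 2 (.l 0) (.l 0)) (.n 2 (.l 0) (.l 0)))) (.n 1 (.n 2 (.n 2 (.l 0) (.l 0)) (.n 2 (.l 0) (.l 0))) (.n 2 (.n 2 (.l 0) (.l 0)) (.n 2 (.l 0) (.l 0)))))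
    [(87045177344, 4581490688), (549755813888, 549755813888), (54975791104, 54975791104)] rfl (by decide +kernel)
end

mutual
theorem D4_c0_t4 : CovD 1 gD4 [(59556233216, 4581490688), (137438953472, 137438953472), (863554764800, 863554764800)] :=
  covD_E kD4_eq (.n 2 (.n 1 (.n 2 (.l 0) (.l 0)) (.n 2 (.l 0) (.l 0))) (.n 2 (.n 1 (.l 0) (.l 0)) (.n 2 (.l 0) (.l 0))))
    [(59556233216, 4581490688), (137438953472, 137438953472), (863554764800, 863554764800)] rfl (by decide +kernel)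
theorem D4_c0_t5 : CovD 1 gD4 [(59556233216, 4581490688), (412316860416, 137438953472), (863554764800, 863554764800)] :=
  covD_E kD4_eq (.n 2 (.n 2 (.n 1 (.l 0) (.l 0)) (.n 2 (.l 0) (.l 0))) (.n 2 (.n 2 (.l 0) (.l 0)) (.n 2 (.l 0) (.n 0 (.l 0) (.l 0)))))
    [(59556233216, 4581490688), (412316860416, 137438953472), (863554764800, 863554764800)] rfl (by decide +kernel)
end

mutual
theorem D4_c0_t7 : CovD 1 gD4 [(59556233216, 4581490688), (687194767360, 137438953472), (863554764800, 863554764800)] :=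
  covD_E kD4_eq (.n 2 (.n 2 (.n 2 (.l 0) (.l 0)) (.n 2 (.l 0) (.l 0))) (.n 2 (.n 2 (.l 0) (.n 0 (.l 0) (.l 0))) (.n 2 (.n 0 (.l 0) (.l 0)) (.l 1))))
    [(59556233216, 4581490688), (687194767360, 137438953472), (863554764800, 863554764800)] rfl (by decide +kernel)
theorem D4_c0_t8 : CovD 1 gD4 [(59556233216, 4581490688), (962072674304, 137438953472), (863554764800, 863554764800)] :=
  covD_E kD4_eq (.n 2 (.n 2 (.n 2 (.l 0) (.l 0)) (.n 0 (.n 1 (.l 0) (.l 0)) (.n 2 (.l 0) (.l 0)))) (.n 2 (.n 2 (.n 0 (.l 0) (.l 0)) (.l 1)) (.n 2 (.l 1) (.l 1))))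
    [(59556233216, 4581490688), (962072674304, 137438953472), (863554764800, 863554764800)] rfl (by decide +kernel)
end

mutual
theorem D4_c0_t11 : CovD 1 gD4 [(68719214592, 4581490688), (137438953472, 137438953472), (863554764800, 863554764800)] :=
  covD_E kD4_eq (.n 2 (.n 1 (.n 2 (.l 0) (.l 0)) (.n 2 (.l 0) (.l 0))) (.n 2 (.n 2 (.l 0) (.l 0)) (.n 2 (.l 0) (.n 0 (.l 0) (.l 0)))))
    [(68719214592, 4581490688), (137438953472, 137438953472), (863554764800, 863554764800)] rfl (by decide +kernel)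
theorem D4_c0_t12 : CovD 1 gD4 [(68719214592, 4581490688), (412316860416, 137438953472), (863554764800, 863554764800)] :=
  covD_E kD4_eq (.n 2 (.n 2 (.n 0 (.l 0) (.l 0)) (.n 2 (.l 0) (.l 0))) (.n 2 (.n 2 (.l 0) (.l 0)) (.n 2 (.l 1) (.l 1))))
    [(68719214592, 4581490688), (412316860416, 137438953472), (863554764800, 863554764800)] rfl (by decide +kernel)
end

mutual
theorem D4_c0_t13 : CovD 1 gD4 [(68719214592, 4581490688), (824633720832, 274877906944), (863554764800, 863554764800)] :=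
  covD_E kD4_eq (.n 1 (.n 2 (.n 2 (.n 2 (.l 0) (.l 0)) (.n 2 (.l 0) (.l 0))) (.n 2 (.n 2 (.l 1) (.l 1)) (.l 1))) (.n 2 (.n 2 (.n 2 (.l 0) (.l 1)) (.n 0 (.l 1) (.l 1))) (.n 2 (.l 1) (.l 1))))
    [(68719214592, 4581490688), (824633720832, 274877906944), (863554764800, 863554764800)] rfl (by decide +kernel)
theorem D4_c0_t16 : CovD 1 gD4 [(82463686656, 9162981376), (137438953472, 137438953472), (863554764800, 863554764800)] :=
  covD_E kD4_eq (.n 0 (.n 2 (.n 2 (.n 0 (.l 0) (.l 0)) (.n 2 (.l 0) (.l 0))) (.n 2 (.n 2 (.l 0) (.l 1)) (.l 1))) (.n 2 (.n 2 (.l 1) (.l 1)) (.n 2 (.l 1) (.l 1))))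
    [(82463686656, 9162981376), (137438953472, 137438953472), (863554764800, 863554764800)] rfl (by decide +kernel)
end

mutual
theorem D4_c0_t17 : CovD 1 gD4 [(82463686656, 9162981376), (412316860416, 137438953472), (863554764800, 863554764800)] :=
  covD_E kD4_eq (.n 2 (.n 2 (.n 2 (.l 1) (.l 1)) (.n 2 (.l 1) (.l 1))) (.n 2 (.n 0 (.l 1) (.l 1)) (.l 1)))
    [(82463686656, 9162981376), (412316860416, 137438953472), (863554764800, 863554764800)] rfl (by decide +kernel)
theorem D4_c0_t18 : CovD 1 gD4 [(82463686656, 9162981376), (824633720832, 274877906944), (863554764800, 863554764800)] :=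
  covD_E kD4_eq (.n 2 (.n 2 (.n 2 (.l 1) (.l 1)) (.n 1 (.l 1) (.l 1))) (.n 0 (.n 2 (.l 1) (.l 1)) (.n 2 (.l 1) (.l 1))))
    [(82463686656, 9162981376), (824633720832, 274877906944), (863554764800, 863554764800)] rfl (by decide +kernel)
end

mutual
theorem E4_c0_t3 : CovD 1 gE4 [(64137723904, 9162981376), (137438953472, 137438953472), (863554764800, 863554764800)] :=
  covD_E kE4_eq (.n 2 (.n 2 (.l 1) (.l 1)) (.n 0 (.n 0 (.n 2 (.l 1) (.n 2 (.l 0) (.l 0))) (.n 2 (.l 1) (.n 2 (.l 1) (.l 0)))) (.n 2 (.l 1) (.n 0 (.l 1) (.l 1)))))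
    [(64137723904, 9162981376), (137438953472, 137438953472), (863554764800, 863554764800)] rfl (by decide +kernel)
theorem E4_c0_t4 : CovD 1 gE4 [(64137723904, 9162981376), (412316860416, 137438953472), (863554764800, 863554764800)] :=
  covD_E kE4_eq (.n 2 (.n 2 (.n 2 (.l 1) (.l 1)) (.n 0 (.l 1) (.l 1))) (.n 0 (.n 2 (.l 1) (.n 0 (.n 2 (.l 1) (.l 0)) (.l 1))) (.n 2 (.l 1) (.l 1))))
    [(64137723904, 9162981376), (412316860416, 137438953472), (863554764800, 863554764800)] rfl (by decide +kernel)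
end

mutual
theorem E4_c0_t5 : CovD 1 gE4 [(64137723904, 9162981376), (824633720832, 274877906944), (863554764800, 863554764800)] :=
  covD_E kE4_eq (.n 2 (.n 2 (.n 2 (.l 1) (.l 1)) (.n 2 (.l 1) (.l 1))) (.n 2 (.n 1 (.n 0 (.l 1) (.l 1)) (.l 1)) (.n 0 (.n 2 (.l 1) (.l 1)) (.l 1))))
    [(64137723904, 9162981376), (824633720832, 274877906944), (863554764800, 863554764800)] rfl (by decide +kernel)
theorem E4_c0_t6 : CovD 1 gE4 [(82463686656, 9162981376), (549755813888, 549755813888), (863554764800, 863554764800)] :=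
  covD_E kE4_eq (.n 1 (.n 2 (.n 1 (.n 2 (.l 1) (.l 1)) (.n 2 (.l 1) (.l 1))) (.n 2 (.l 1) (.n 0 (.l 1) (.l 1)))) (.n 2 (.n 2 (.n 2 (.l 1) (.l 1)) (.n 2 (.l 1) (.l 1))) (.n 2 (.n 0 (.l 1) (.l 1)) (.l 1))))
    [(82463686656, 9162981376), (549755813888, 549755813888), (863554764800, 863554764800)] rfl (by decide +kernel)
end

theorem A4_c0_t4 : CovD 1 gA4 [(59556233216, 4581490688), (137438953472, 137438953472), (5497558138880, 5497558138880)] :=
  covD_split 2 (by decide +kernel) A4_c0_t5 A4_c0_t6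

theorem A4_c0_t3 : CovD 1 gA4 [(59556233216, 4581490688), (274877906944, 274877906944), (5497558138880, 5497558138880)] :=
  covD_split 1 (by decide +kernel) A4_c0_t4 A4_c0_t7

theorem A4_c0_t8 : CovD 1 gA4 [(59556233216, 4581490688), (824633720832, 274877906944), (5497558138880, 5497558138880)] :=
  covD_split 0 (by decide +kernel) A4_c0_t9 A4_c0_t10

theorem A4_c0_t2 : CovD 1 gA4 [(59556233216, 4581490688), (549755813888, 549755813888), (5497558138880, 5497558138880)] :=
  covD_split 1 (by decide +kernel) A4_c0_t3 A4_c0_t8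

theorem A4_c0_t12 : CovD 1 gA4 [(68719214592, 4581490688), (274877906944, 274877906944), (5497558138880, 5497558138880)] :=
  covD_split 1 (by decide +kernel) A4_c0_t13 A4_c0_t14

theorem A4_c0_t15 : CovD 1 gA4 [(68719214592, 4581490688), (824633720832, 274877906944), (5497558138880, 5497558138880)] :=
  covD_split 1 (by decide +kernel) A4_c0_t16 A4_c0_t17

theorem A4_c0_t11 : CovD 1 gA4 [(68719214592, 4581490688), (549755813888, 549755813888), (5497558138880, 5497558138880)] :=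
  covD_split 1 (by decide +kernel) A4_c0_t12 A4_c0_t15

theorem A4_c0_t1 : CovD 1 gA4 [(64137723904, 9162981376), (549755813888, 549755813888), (5497558138880, 5497558138880)] :=
  covD_split 0 (by decide +kernel) A4_c0_t2 A4_c0_t11

theorem A4_c0_t20 : CovD 1 gA4 [(77882195968, 4581490688), (274877906944, 274877906944), (5497558138880, 5497558138880)] :=
  covD_split 1 (by decide +kernel) A4_c0_t21 A4_c0_t22

theorem A4_c0_t23 : CovD 1 gA4 [(77882195968, 4581490688), (824633720832, 274877906944), (5497558138880, 5497558138880)] :=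
  covD_split 1 (by decide +kernel) A4_c0_t24 A4_c0_t25

theorem A4_c0_t19 : CovD 1 gA4 [(77882195968, 4581490688), (549755813888, 549755813888), (5497558138880, 5497558138880)] :=
  covD_split 1 (by decide +kernel) A4_c0_t20 A4_c0_t23

theorem A4_c0_t27 : CovD 1 gA4 [(87045177344, 4581490688), (274877906944, 274877906944), (5497558138880, 5497558138880)] :=
  covD_split 1 (by decide +kernel) A4_c0_t28 A4_c0_t29

theorem A4_c0_t30 : CovD 1 gA4 [(87045177344, 4581490688), (824633720832, 274877906944), (5497558138880, 5497558138880)] :=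
  covD_split 1 (by decide +kernel) A4_c0_t31 A4_c0_t32

theorem A4_c0_t26 : CovD 1 gA4 [(87045177344, 4581490688), (549755813888, 549755813888), (5497558138880, 5497558138880)] :=
  covD_split 1 (by decide +kernel) A4_c0_t27 A4_c0_t30

theorem A4_c0_t18 : CovD 1 gA4 [(82463686656, 9162981376), (549755813888, 549755813888), (5497558138880, 5497558138880)] :=
  covD_split 0 (by decide +kernel) A4_c0_t19 A4_c0_t26

theorem A4_c0 : CovD 1 gA4 [(73300705280, 18325962752), (549755813888, 549755813888), (5497558138880, 5497558138880)] :=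
  covD_split 0 (by decide +kernel) A4_c0_t1 A4_c0_t18

theorem B4_c0_t3 : CovD 1 gB4 [(57265487872, 2290745344), (549755813888, 549755813888), (54975791104, 54975791104)] :=
  covD_split 1 (by decide +kernel) B4_c0_t4 B4_c0_t5

theorem B4_c0_t6 : CovD 1 gB4 [(61846978560, 2290745344), (549755813888, 549755813888), (54975791104, 54975791104)] :=
  covD_split 1 (by decide +kernel) B4_c0_t7 B4_c0_t8

theorem B4_c0_t2 : CovD 1 gB4 [(59556233216, 4581490688), (549755813888, 549755813888), (54975791104, 54975791104)] :=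
  covD_split 0 (by decide +kernel) B4_c0_t3 B4_c0_t6

theorem B4_c0_t9 : CovD 1 gB4 [(68719214592, 4581490688), (549755813888, 549755813888), (54975791104, 54975791104)] :=
  covD_split 0 (by decide +kernel) B4_c0_t10 B4_c0_t11

theorem B4_c0_t1 : CovD 1 gB4 [(64137723904, 9162981376), (549755813888, 549755813888), (54975791104, 54975791104)] :=
  covD_split 0 (by decide +kernel) B4_c0_t2 B4_c0_t9

theorem B4_c0_t13 : CovD 1 gB4 [(77882195968, 4581490688), (549755813888, 549755813888), (54975791104, 54975791104)] :=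
  covD_split 1 (by decide +kernel) B4_c0_t14 B4_c0_t15

theorem B4_c0_t12 : CovD 1 gB4 [(82463686656, 9162981376), (549755813888, 549755813888), (54975791104, 54975791104)] :=
  covD_split 0 (by decide +kernel) B4_c0_t13 B4_c0_t16

theorem B4_c0 : CovD 1 gB4 [(73300705280, 18325962752), (549755813888, 549755813888), (54975791104, 54975791104)] :=
  covD_split 0 (by decide +kernel) B4_c0_t1 B4_c0_t12

theorem D4_c0_t3 : CovD 1 gD4 [(59556233216, 4581490688), (274877906944, 274877906944), (863554764800, 863554764800)] :=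
  covD_split 1 (by decide +kernel) D4_c0_t4 D4_c0_t5

theorem D4_c0_t6 : CovD 1 gD4 [(59556233216, 4581490688), (824633720832, 274877906944), (863554764800, 863554764800)] :=
  covD_split 1 (by decide +kernel) D4_c0_t7 D4_c0_t8

theorem D4_c0_t2 : CovD 1 gD4 [(59556233216, 4581490688), (549755813888, 549755813888), (863554764800, 863554764800)] :=
  covD_split 1 (by decide +kernel) D4_c0_t3 D4_c0_t6

theorem D4_c0_t10 : CovD 1 gD4 [(68719214592, 4581490688), (274877906944, 274877906944), (863554764800, 863554764800)] :=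
  covD_split 1 (by decide +kernel) D4_c0_t11 D4_c0_t12

theorem D4_c0_t9 : CovD 1 gD4 [(68719214592, 4581490688), (549755813888, 549755813888), (863554764800, 863554764800)] :=
  covD_split 1 (by decide +kernel) D4_c0_t10 D4_c0_t13

theorem D4_c0_t1 : CovD 1 gD4 [(64137723904, 9162981376), (549755813888, 549755813888), (863554764800, 863554764800)] :=
  covD_split 0 (by decide +kernel) D4_c0_t2 D4_c0_t9

theorem D4_c0_t15 : CovD 1 gD4 [(82463686656, 9162981376), (274877906944, 274877906944), (863554764800, 863554764800)] :=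
  covD_split 1 (by decide +kernel) D4_c0_t16 D4_c0_t17

theorem D4_c0_t14 : CovD 1 gD4 [(82463686656, 9162981376), (549755813888, 549755813888), (863554764800, 863554764800)] :=
  covD_split 1 (by decide +kernel) D4_c0_t15 D4_c0_t18

theorem D4_c0 : CovD 1 gD4 [(73300705280, 18325962752), (549755813888, 549755813888), (863554764800, 863554764800)] :=
  covD_split 0 (by decide +kernel) D4_c0_t1 D4_c0_t14

theorem E4_c0_t2 : CovD 1 gE4 [(64137723904, 9162981376), (274877906944, 274877906944), (863554764800, 863554764800)] :=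
  covD_split 1 (by decide +kernel) E4_c0_t3 E4_c0_t4

theorem E4_c0_t1 : CovD 1 gE4 [(64137723904, 9162981376), (549755813888, 549755813888), (863554764800, 863554764800)] :=
  covD_split 1 (by decide +kernel) E4_c0_t2 E4_c0_t5

theorem E4_c0 : CovD 1 gE4 [(73300705280, 18325962752), (549755813888, 549755813888), (863554764800, 863554764800)] :=
  covD_split 0 (by decide +kernel) E4_c0_t1 E4_c0_t6

end Pool.Agent.helper14.NR.E12e
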