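import Pool.Agent.helper14.NR.E12e.PZ

/-!
Generated: certificates.
-/

namespace Pool.Agent.helper14.NR.E12e

open Pool.Agent.helper31.IA (Z)
open Pool.Agent.helper31.IX (Op XOps runX Cov CovD cov_split covD_split)
open Pool.Agent.helper31.IC (TD)
open Pool.Agent.helper63.RG (reloc)
open Pool.Agent.helper63.NF hiding TD
open Pool.Agent.helper14.CF (xE covD_E)
open Pool.Agent.helper14.NR (share)

mutual
theorem Z_c0_t4 : CovD 1 gZ [(59556233216, 4581490688), (137438953472, 137438953472), (549755813888, 549755813888)] :=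
  covD_E kZ_eq (.n 2 (.n 1 (.n 2 (.n 2 (.l 0) (.l 0)) (.n 2 (.l 0) (.l 0))) (.n 2 (.n 2 (.l 0) (.l 0)) (.n 2 (.l 0) (.l 0)))) (.n 2 (.n 2 (.n 0 (.l 0) (.l 0)) (.l 0)) (.n 1 (.l 0) (.l 0))))
    [(59556233216, 4581490688), (137438953472, 137438953472), (549755813888, 549755813888)] rfl (by decide +kernel)
theorem Z_c0_t5 : CovD 1 gZ [(59556233216, 4581490688), (412316860416, 137438953472), (549755813888, 549755813888)] :=
  covD_E kZ_eq (.n 2 (.n 2 (.n 0 (.n 2 (.l 0) (.l 0)) (.n 2 (.l 0) (.l 0))) (.n 2 (.n 0 (.l 0) (.l 0)) (.l 0))) (.n 2 (.n 2 (.l 0) (.l 0)) (.n 0 (.l 0) (.l 0))))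
    [(59556233216, 4581490688), (412316860416, 137438953472), (549755813888, 549755813888)] rfl (by decide +kernel)
end

mutual
theorem Z_c0_t6 : CovD 1 gZ [(59556233216, 4581490688), (824633720832, 274877906944), (549755813888, 549755813888)] :=
  covD_E kZ_eq (.n 1 (.n 2 (.n 2 (.n 2 (.l 0) (.l 0)) (.n 2 (.l 0) (.l 0))) (.n 2 (.n 0 (.l 0) (.l 0)) (.l 0))) (.n 2 (.n 2 (.l 0) (.l 0)) (.n 2 (.l 0) (.l 0))))
    [(59556233216, 4581490688), (824633720832, 274877906944), (549755813888, 549755813888)] rfl (by decide +kernel)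
theorem Z_c0_t9 : CovD 1 gZ [(68719214592, 4581490688), (137438953472, 137438953472), (549755813888, 549755813888)] :=
  covD_E kZ_eq (.n 2 (.n 2 (.n 0 (.n 2 (.l 0) (.l 0)) (.n 2 (.l 0) (.l 0))) (.n 2 (.n 0 (.l 0) (.l 0)) (.l 0))) (.n 2 (.n 2 (.l 0) (.l 0)) (.n 0 (.l 0) (.l 0))))
    [(68719214592, 4581490688), (137438953472, 137438953472), (549755813888, 549755813888)] rfl (by decide +kernel)
end

mutual
theorem Z_c0_t10 : CovD 1 gZ [(68719214592, 4581490688), (412316860416, 137438953472), (549755813888, 549755813888)] :=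
  covD_E kZ_eq (.n 2 (.n 2 (.n 2 (.l 0) (.l 0)) (.n 2 (.l 0) (.l 0))) (.n 2 (.n 0 (.l 0) (.l 0)) (.l 0)))
    [(68719214592, 4581490688), (412316860416, 137438953472), (549755813888, 549755813888)] rfl (by decide +kernel)
theorem Z_c0_t11 : CovD 1 gZ [(68719214592, 4581490688), (824633720832, 274877906944), (549755813888, 549755813888)] :=
  covD_E kZ_eq (.n 1 (.n 2 (.n 0 (.n 2 (.l 0) (.l 0)) (.n 2 (.l 0) (.l 0))) (.n 2 (.l 0) (.l 0))) (.n 2 (.n 2 (.l 0) (.l 0)) (.n 2 (.l 0) (.l 0))))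
    [(68719214592, 4581490688), (824633720832, 274877906944), (549755813888, 549755813888)] rfl (by decide +kernel)
end

mutual
theorem Z_c0_t14 : CovD 1 gZ [(77882195968, 4581490688), (274877906944, 274877906944), (549755813888, 549755813888)] :=
  covD_E kZ_eq (.n 1 (.n 2 (.n 2 (.n 2 (.l 0) (.l 0)) (.n 2 (.l 0) (.l 0))) (.n 0 (.n 2 (.l 0) (.l 0)) (.n 2 (.l 0) (.l 0)))) (.n 2 (.n 2 (.n 2 (.l 0) (.l 0)) (.n 0 (.l 0) (.l 0))) (.n 2 (.l 0) (.l 0))))
    [(77882195968, 4581490688), (274877906944, 274877906944), (549755813888, 549755813888)] rfl (by decide +kernel)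
theorem Z_c0_t15 : CovD 1 gZ [(77882195968, 4581490688), (824633720832, 274877906944), (549755813888, 549755813888)] :=
  covD_E kZ_eq (.n 1 (.n 2 (.n 2 (.l 0) (.l 0)) (.n 2 (.l 0) (.l 0))) (.n 2 (.n 2 (.l 0) (.l 0)) (.n 2 (.l 0) (.l 0))))
    [(77882195968, 4581490688), (824633720832, 274877906944), (549755813888, 549755813888)] rfl (by decide +kernel)
end

mutual
theorem Z_c0_t17 : CovD 1 gZ [(87045177344, 4581490688), (274877906944, 274877906944), (549755813888, 549755813888)] :=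
  covD_E kZ_eq (.n 1 (.n 2 (.n 2 (.n 2 (.l 0) (.l 0)) (.n 2 (.l 0) (.l 0))) (.n 2 (.n 0 (.l 0) (.l 0)) (.l 0))) (.n 2 (.n 0 (.n 2 (.l 0) (.l 0)) (.n 2 (.l 0) (.l 0))) (.n 2 (.l 0) (.l 0))))
    [(87045177344, 4581490688), (274877906944, 274877906944), (549755813888, 549755813888)] rfl (by decide +kernel)
theorem Z_c0_t18 : CovD 1 gZ [(87045177344, 4581490688), (824633720832, 274877906944), (549755813888, 549755813888)] :=
  covD_E kZ_eq (.n 1 (.n 2 (.n 2 (.l 0) (.l 0)) (.n 2 (.l 0) (.l 0))) (.n 2 (.n 2 (.l 0) (.l 0)) (.n 2 (.l 0) (.l 0))))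
    [(87045177344, 4581490688), (824633720832, 274877906944), (549755813888, 549755813888)] rfl (by decide +kernel)
end

mutual
theorem T_c0 : CovD 1 gT [(73300705280, 18325962752), (549755813888, 549755813888)] :=
  covD_E kT_eq (.n 0 (.n 1 (.l 0) (.l 0)) (.l 0))
    [(73300705280, 18325962752), (549755813888, 549755813888)] rfl (by decide +kernel)
theorem S_c0 : CovD 0 gS [(73300705280, 18325962752), (549755813888, 549755813888)] :=
  covD_E kS_eq (.n 0 (.n 0 (.l 0) (.l 0)) (.n 0 (.l 0) (.l 0)))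
    [(73300705280, 18325962752), (549755813888, 549755813888)] rfl (by decide +kernel)
end

theorem Z_c0_t3 : CovD 1 gZ [(59556233216, 4581490688), (274877906944, 274877906944), (549755813888, 549755813888)] :=
  covD_split 1 (by decide +kernel) Z_c0_t4 Z_c0_t5

theorem Z_c0_t2 : CovD 1 gZ [(59556233216, 4581490688), (549755813888, 549755813888), (549755813888, 549755813888)] :=
  covD_split 1 (by decide +kernel) Z_c0_t3 Z_c0_t6

theorem Z_c0_t8 : CovD 1 gZ [(68719214592, 4581490688), (274877906944, 274877906944), (549755813888, 549755813888)] :=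
  covD_split 1 (by decide +kernel) Z_c0_t9 Z_c0_t10

theorem Z_c0_t7 : CovD 1 gZ [(68719214592, 4581490688), (549755813888, 549755813888), (549755813888, 549755813888)] :=
  covD_split 1 (by decide +kernel) Z_c0_t8 Z_c0_t11

theorem Z_c0_t1 : CovD 1 gZ [(64137723904, 9162981376), (549755813888, 549755813888), (549755813888, 549755813888)] :=
  covD_split 0 (by decide +kernel) Z_c0_t2 Z_c0_t7

theorem Z_c0_t13 : CovD 1 gZ [(77882195968, 4581490688), (549755813888, 549755813888), (549755813888, 549755813888)] :=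
  covD_split 1 (by decide +kernel) Z_c0_t14 Z_c0_t15

theorem Z_c0_t16 : CovD 1 gZ [(87045177344, 4581490688), (549755813888, 549755813888), (549755813888, 549755813888)] :=
  covD_split 1 (by decide +kernel) Z_c0_t17 Z_c0_t18

theorem Z_c0_t12 : CovD 1 gZ [(82463686656, 9162981376), (549755813888, 549755813888), (549755813888, 549755813888)] :=
  covD_split 0 (by decide +kernel) Z_c0_t13 Z_c0_t16

theorem Z_c0 : CovD 1 gZ [(73300705280, 18325962752), (549755813888, 549755813888), (549755813888, 549755813888)] :=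
  covD_split 0 (by decide +kernel) Z_c0_t1 Z_c0_t12

end Pool.Agent.helper14.NR.E12e
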