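import Pool.Agent.helper14.NR.E12e.Tab
import Pool.Agent.helper14.NR.Share

/-!
Generated: programs and compiled forms.
-/

namespace Pool.Agent.helper14.NR.E12e

open Pool.Agent.helper31.IA (Z)
open Pool.Agent.helper31.IX (Op XOps runX Cov CovD cov_split covD_split)
open Pool.Agent.helper31.IC (TD)
open Pool.Agent.helper63.RG (reloc)
open Pool.Agent.helper63.NF hiding TD
open Pool.Agent.helper14.CF (xE covD_E)
open Pool.Agent.helper14.NR (share)

def p2_2 : List Op := [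
  .pos 0,
  .inv 0,
  .mul 1 2,
  .scale ⟨2199023255552, 0, 0, 0⟩ 0,
  .exp 1,
  .neg 2,
  .exp 0,
  .mul 2 2,
  .mul 1 1,
  .mul 0 0,
  .sub 5 3,
  .add 6 4,
  .mul 1 0,
  .scale ⟨549755813888, 0, 0, 0⟩ 0,
  .mul 3 3,
  .mul 1 13,
  .scale ⟨2199023255552, 0, 0, 0⟩ 16,
  .neg 0,
  .exp 0,
  .const ⟨1099511627776, 0, 0, 0⟩,
  .add 1 0,
  .pos 0,
  .inv 0,
  .mul 3 0,
  .add 15 14,
  .scale ⟨549755813888, 0, 0, 0⟩ 0,
  .const ⟨73282879488, 0, 0, 0⟩,
  .sub 25 0,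
  .const ⟨2448131358720, 0, 0, 0⟩,
  .sub 28 0,
  .mul 0 0,
  .mul 0 1,
  .mul 4 2,
  .mul 5 2,
  .mul 6 6,
  .mul 0 5,
  .mul 1 8,
  .scale ⟨19730499072, 0, 0, 0⟩ 7,
  .scale ⟨1839910208, 0, 0, 0⟩ 7,
  .add 1 0,
  .scale ⟨586531008, 0, 0, 0⟩ 8,
  .add 1 0,
  .scale ⟨611108671296, 0, 0, 0⟩ 14,
  .add 1 0,
  .scale ⟨11652582336, 0, 0, 0⟩ 11,
  .add 1 0,
  .scale ⟨78638049600, 0, 0, 0⟩ 12,
  .add 1 0,
  .scale ⟨311579116096, 0, 0, 0⟩ 13,
  .add 1 0,
  .scale ⟨0, 61858872192, 0, 0⟩ 14,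
  .add 1 0,
  .scale ⟨0, 10957237711296, 0, 0⟩ 15,
  .add 1 0,
  .const ⟨609231375104, 0, 0, 0⟩,
  .add 1 0,
  .scale ⟨0, 1546686144, 0, 0⟩ 26,
  .scale ⟨1223488, 0, 0, 0⟩ 26,
  .add 1 0,
  .scale ⟨0, 62016264192, 0, 0⟩ 31,
  .add 1 0,
  .scale ⟨6458025472, 0, 0, 0⟩ 28,
  .add 1 0,
  .scale ⟨0, 292898214080, 0, 0⟩ 28,
  .add 1 0,
  .const ⟨0, 8548353728, 0, 0⟩,
  .add 1 0,
  .scale ⟨42561152, 0, 0, 0⟩ 37,
  .scale ⟨0, 1550935936, 0, 0⟩ 40,
  .add 1 0,
  .const ⟨610872192, 0, 0, 0⟩,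
  .add 1 0,
  .add 46 72,
  .pos 0,
  .inv 0,
  .mul 0 0,
  .sub 54 0,
  .mul 0 73,
  .sub 66 2,
  .mul 0 75,
  .scale ⟨0, 16406775070720, 0, 0⟩ 51,
  .const ⟨0, 2187748966400, 0, 0⟩,
  .add 1 0,
  .sub 5 0,
  .pos 0,
  .inv 0,
  .scale ⟨31362867265536, 0, 0, 0⟩ 0,
  .add 2 0,
  .pos 0,
  .inv 0,
  .scale ⟨0, 10383442304, 0, 0⟩ 57,
  .scale ⟨0, 2155813236352, 0, 0⟩ 60,
  .add 1 0,
  .const ⟨0, 199257171840, 0, 0⟩,
  .add 1 0,
  .scale ⟨0, 787359671232, 0, 0⟩ 62,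
  .scale ⟨0, 2219922410048, 0, 0⟩ 65,
  .add 1 0,
  .const ⟨0, 62816648960, 0, 0⟩,
  .add 1 0,
  .mul 13 0,
  .add 6 0,
  .mul 0 12,
  .scale ⟨961600, 0, 0, 0⟩ 23,
  .const ⟨0, 38336320, 0, 0⟩,
  .add 1 0,
  .mul 26 0,
  .add 0 32,
  .mul 28 0,
  .add 0 39,
  .mul 30 0,
  .add 8 52,
  .add 1 0,
  .mul 31 0,
  .neg 0,
  .exp 0,
  .sub 0 92,
  .add 0 93,
  .mul 95 0,
  .add 0 95,
  .pos 0,
  .mul 93 3,
  .add 0 97,
  .pos 0,
  .log 0,
  .add 120 105,
  .scale ⟨595263488, 0, 0, 0⟩ 91,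
  .scale ⟨1441792, 0, 0, 0⟩ 91,
  .add 1 0,
  .scale ⟨0, 196608, 0, 0⟩ 92,
  .add 1 0,
  .scale ⟨19882967040, 0, 0, 0⟩ 98,
  .add 1 0,
  .scale ⟨9044230144, 0, 0, 0⟩ 95,
  .add 1 0,
  .const ⟨89276350464, 0, 0, 0⟩,
  .add 1 0,
  .scale ⟨3573412790272, 0, 0, 0⟩ 127,
  .neg 0,
  .exp 0,
  .mul 3 0,
  .scale ⟨659814350848, 0, 0, 0⟩ 136,
  .add 0 135,
  .pos 0,
  .inv 0,
  .mul 18 3,
  .scale ⟨2199023255552, 0, 0, 0⟩ 0,
  .mul 0 2,
  .mul 0 143,
  .sub 122 0,
  .pos 0,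
  .log 0,
  .mul 29 2,
  .add 0 125,
  .pos 0,
  .log 0,
  .sub 122 74,
  .add 0 123,
  .add 39 2,
  .sub 0 6,
  .mul 0 150,
  .add 148 0,
  .exp 0,
  .sub 0 134,
  .sub 45 11,
  .sub 0 9,
  .scale ⟨2199023255552, 0, 0, 0⟩ 38,
  .add 1 0,
  .mul 0 158,
  .exp 0,
  .sub 0 141,
  .add 87 147,
  .mul 8 0,
  .mul 16 16,
  .scale ⟨2199023255552, 0, 0, 0⟩ 0,
  .sub 2 0,
  .mul 152 152,
  .scale ⟨549755813888, 0, 0, 0⟩ 0,
  .sub 2 0,
  .mul 155 8,
  .const ⟨2199023255552, 0, 0, 0⟩,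
  .add 17 0,
  .mul 2 0,
  .add 4 0,
  .pos 26,
  .inv 26,
  .mul 1 0,
  .mul 0 1,
  .add 0 158,
  .pos 0,
  .log 0,
  .scale ⟨549755813888, 0, 0, 0⟩ 0,
  .exp 0,
  .sub 0 162,
  .mul 34 0,
  .add 36 0,
  .mul 36 176,
  .pos 0,
  .log 0,
  .add 0 6,
  .mul 0 186,
  .pos 69,
  .inv 69,
  .mul 181 118,
  .mul 1 0,
  .mul 0 8,
  .add 0 173,
  .pos 0,
  .mul 186 121,
  .mul 0 1,
  .scale ⟨256500105216, 0, 0, 0⟩ 167,
  .scale ⟨136388214784, 0, 0, 0⟩ 167,
  .add 1 0,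
  .scale ⟨0, 98968862720, 0, 0⟩ 168,
  .add 1 0,
  .scale ⟨14186678386688, 0, 0, 0⟩ 174,
  .add 1 0,
  .scale ⟨7665243193344, 0, 0, 0⟩ 171,
  .add 1 0,
  .const ⟨1218630451200, 0, 0, 0⟩,
  .add 1 0,
  .scale ⟨3298534883328, 0, 0, 0⟩ 203,
  .exp 0,
  .pos 2,
  .pos 205,
  .inv 205,
  .mul 196 0,
  .scale ⟨2199023255552, 0, 0, 0⟩ 0,
  .mul 0 19,
  .mul 0 4,
  .inv 20,
  .mul 23 0,
  .inv 9,
  .mul 8 0,
  .mul 2 0,
  .mul 5 0,
  .lt 0 1099510579200,
  .mul 204 204,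
  .const ⟨29662117888000, 0, 0, 0⟩,
  .add 1 0,
  .pos 0,
  .inv 0,
  .mul 39 222,
  .mul 0 0,
  .sub 0 5,
  .mul 0 3,
  .lt 0 1099510579200,
  .scale ⟨1099511627776, 0, 0, 0⟩ 93,
  .pos 0,
  .inv 0,
  .scale ⟨13041664, 0, 0, 0⟩ 154,
  .const ⟨0, 433455104, 0, 0⟩,
  .add 1 0,
  .mul 157 0,
  .scale ⟨1782579200, 0, 0, 0⟩ 205,
  .scale ⟨569334890496, 0, 0, 0⟩ 208,
  .add 1 0,
  .const ⟨40934506496, 0, 0, 0⟩,
  .add 1 0,
  .add 5 0,
  .mul 164 0,
  .scale ⟨97785348096, 0, 0, 0⟩ 212,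
  .scale ⟨0, 48087302144, 0, 0⟩ 212,
  .add 1 0,
  .scale ⟨3444845051904, 0, 0, 0⟩ 217,
  .add 1 0,
  .const ⟨1234569068544, 0, 0, 0⟩,
  .add 1 0,
  .add 7 0,
  .mul 112 59,
  .mul 0 20,
  .scale ⟨549755813888, 0, 0, 0⟩ 0,
  .add 227 67,
  .pos 0,
  .inv 0,
  .mul 0 0,
  .sub 235 0,
  .mul 0 254,
  .sub 247 2,
  .mul 0 256,
  .scale ⟨0, 16406775070720, 0, 0⟩ 232,
  .const ⟨0, 2187748966400, 0, 0⟩,
  .add 1 0,
  .sub 5 0,
  .pos 0,
  .inv 0,
  .scale ⟨31362867265536, 0, 0, 0⟩ 0,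
  .add 2 0,
  .pos 0,
  .inv 0,
  .scale ⟨0, 10383442304, 0, 0⟩ 238,
  .scale ⟨0, 2155813236352, 0, 0⟩ 241,
  .add 1 0,
  .const ⟨0, 199257171840, 0, 0⟩,
  .add 1 0,
  .scale ⟨0, 787359671232, 0, 0⟩ 243,
  .scale ⟨0, 2219922410048, 0, 0⟩ 246,
  .add 1 0,
  .const ⟨0, 62816648960, 0, 0⟩,
  .add 1 0,
  .mul 13 0,
  .add 6 0,
  .mul 0 12,
  .scale ⟨961600, 0, 0, 0⟩ 23,
  .const ⟨0, 38336320, 0, 0⟩,
  .add 1 0,
  .mul 26 0,
  .add 0 213,
  .mul 28 0,
  .add 0 220,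
  .mul 30 0,
  .add 8 233,
  .add 1 0,
  .mul 31 0,
  .neg 0,
  .exp 0,
  .sub 0 273,
  .add 0 274,
  .mul 276 0,
  .add 0 276,
  .pos 0,
  .mul 274 3,
  .add 0 278,
  .pos 0,
  .log 0,
  .scale ⟨549755813888, 0, 0, 0⟩ 115,
  .add 0 300,
  .pos 0,
  .inv 0,
  .scale ⟨0, 577437696, 0, 0⟩ 274,
  .scale ⟨1376256, 0, 0, 0⟩ 274,
  .add 1 0,
  .scale ⟨0, 196608, 0, 0⟩ 275,
  .add 1 0,
  .scale ⟨0, 19291570176, 0, 0⟩ 281,
  .add 1 0,
  .scale ⟨0, 8553431040, 0, 0⟩ 278,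
  .add 1 0,
  .const ⟨86665527296, 0, 0, 0⟩,
  .add 1 0,
  .scale ⟨5222680231936, 0, 0, 0⟩ 310,
  .neg 0,
  .exp 0,
  .mul 3 0,
  .scale ⟨1099511627776, 0, 0, 0⟩ 0,
  .mul 0 89,
  .mul 0 124,
  .mul 184 18,
  .mul 1 0,
  .add 213 204,
  .sub 0 24,
  .sub 0 136,
  .exp 0,
  .const ⟨0, 0, 0, 0⟩,
  .mul 79 1,
  .mul 0 33,
  .mul 0 7,
  .rball 3 0,
  .sub 312 83,
  .mul 335 0,
  .sub 314 7,
  .scale ⟨1099511627776, 0, 0, 0⟩ 0,
  .mul 0 84,
  .mul 88 0,
  .add 4 0,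
  .add 0 7,
  .lt 0 1099510579200]

set_option maxRecDepth 1000000 in
noncomputable def c2_2 {α : Type} (cst : Z → α) (add sub mul : α → α → α) (scale : Z → α → α)
    (neg inv exp log : α → α) (ok : α → Bool) (isPos : Nat → α → Bool) (isLt : α → Nat → Bool)
    (ball : Nat → α → α) (rball : α → α → α) : List α → Bool
  | [x0, x1, x2, x3] =>
  isPos 3 x0 && (
  let v0 := inv x0; ok v0 && (
  let v1 := mul x0 x1; ok v1 && (
  let v2 := scale ⟨2199023255552, 0, 0, 0⟩ v1; ok v2 && (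
  let v3 := exp v1; ok v3 && (
  let v4 := neg v1; ok v4 && (
  let v5 := exp v4; ok v5 && (
  let v6 := mul v3 v3; ok v6 && (
  let v7 := mul v5 v5; ok v7 && (
  let v8 := mul v7 v7; ok v8 && (
  let v9 := sub v3 v5; ok v9 && (
  let v10 := add v3 v5; ok v10 && (
  let v11 := mul v9 v10; ok v11 && (
  let v12 := scale ⟨549755813888, 0, 0, 0⟩ v11; ok v12 && (
  let v13 := mul v9 v9; ok v13 && (
  let v14 := mul v12 v0; ok v14 && (
  let v15 := scale ⟨2199023255552, 0, 0, 0⟩ x1; ok v15 && (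
  let v16 := neg v15; ok v16 && (
  let v17 := exp v16; ok v17 && (
  let v18 := cst ⟨1099511627776, 0, 0, 0⟩; ok v18 && (
  let v19 := add v17 v18; ok v19 && (
  isPos 3 v19 && (
  let v20 := inv v19; ok v20 && (
  let v21 := mul v17 v20; ok v21 && (
  let v22 := add v6 v7; ok v22 && (
  let v23 := scale ⟨549755813888, 0, 0, 0⟩ v22; ok v23 && (
  let v24 := cst ⟨73282879488, 0, 0, 0⟩; ok v24 && (
  let v25 := sub x0 v24; ok v25 && (
  let v26 := cst ⟨2448131358720, 0, 0, 0⟩; ok v26 && (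
  let v27 := sub x1 v26; ok v27 && (
  let v28 := mul v27 v27; ok v28 && (
  let v29 := mul v28 v27; ok v29 && (
  let v30 := mul v25 v27; ok v30 && (
  let v31 := mul v25 v28; ok v31 && (
  let v32 := mul v25 v25; ok v32 && (
  let v33 := mul v32 v27; ok v33 && (
  let v34 := mul v32 v25; ok v34 && (
  let v35 := scale ⟨19730499072, 0, 0, 0⟩ v27; ok v35 && (
  let v36 := scale ⟨1839910208, 0, 0, 0⟩ v28; ok v36 && (
  let v37 := add v35 v36; ok v37 && (
  let v38 := scale ⟨586531008, 0, 0, 0⟩ v29; ok v38 && (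
  let v39 := add v37 v38; ok v39 && (
  let v40 := scale ⟨611108671296, 0, 0, 0⟩ v25; ok v40 && (
  let v41 := add v39 v40; ok v41 && (
  let v42 := scale ⟨11652582336, 0, 0, 0⟩ v30; ok v42 && (
  let v43 := add v41 v42; ok v43 && (
  let v44 := scale ⟨78638049600, 0, 0, 0⟩ v31; ok v44 && (
  let v45 := add v43 v44; ok v45 && (
  let v46 := scale ⟨311579116096, 0, 0, 0⟩ v32; ok v46 && (
  let v47 := add v45 v46; ok v47 && (
  let v48 := scale ⟨0, 61858872192, 0, 0⟩ v33; ok v48 && (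
  let v49 := add v47 v48; ok v49 && (
  let v50 := scale ⟨0, 10957237711296, 0, 0⟩ v34; ok v50 && (
  let v51 := add v49 v50; ok v51 && (
  let v52 := cst ⟨609231375104, 0, 0, 0⟩; ok v52 && (
  let v53 := add v51 v52; ok v53 && (
  let v54 := scale ⟨0, 1546686144, 0, 0⟩ v27; ok v54 && (
  let v55 := scale ⟨1223488, 0, 0, 0⟩ v28; ok v55 && (
  let v56 := add v54 v55; ok v56 && (
  let v57 := scale ⟨0, 62016264192, 0, 0⟩ v25; ok v57 && (
  let v58 := add v56 v57; ok v58 && (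
  let v59 := scale ⟨6458025472, 0, 0, 0⟩ v30; ok v59 && (
  let v60 := add v58 v59; ok v60 && (
  let v61 := scale ⟨0, 292898214080, 0, 0⟩ v32; ok v61 && (
  let v62 := add v60 v61; ok v62 && (
  let v63 := cst ⟨0, 8548353728, 0, 0⟩; ok v63 && (
  let v64 := add v62 v63; ok v64 && (
  let v65 := scale ⟨42561152, 0, 0, 0⟩ v27; ok v65 && (
  let v66 := scale ⟨0, 1550935936, 0, 0⟩ v25; ok v66 && (
  let v67 := add v65 v66; ok v67 && (
  let v68 := cst ⟨610872192, 0, 0, 0⟩; ok v68 && (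
  let v69 := add v67 v68; ok v69 && (
  let v70 := add v23 x2; ok v70 && (
  isPos 3 v70 && (
  let v71 := inv v70; ok v71 && (
  let v72 := mul v71 v71; ok v72 && (
  let v73 := sub v18 v72; ok v73 && (
  let v74 := mul v73 v0; ok v74 && (
  let v75 := sub v8 v72; ok v75 && (
  let v76 := mul v75 v0; ok v76 && (
  let v77 := scale ⟨0, 16406775070720, 0, 0⟩ v25; ok v77 && (
  let v78 := cst ⟨0, 2187748966400, 0, 0⟩; ok v78 && (
  let v79 := add v77 v78; ok v79 && (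
  let v80 := sub v74 v79; ok v80 && (
  isPos 3 v80 && (
  let v81 := inv v80; ok v81 && (
  let v82 := scale ⟨31362867265536, 0, 0, 0⟩ v81; ok v82 && (
  let v83 := add v80 v82; ok v83 && (
  isPos 3 v83 && (
  let v84 := inv v83; ok v84 && (
  let v85 := scale ⟨0, 10383442304, 0, 0⟩ v27; ok v85 && (
  let v86 := scale ⟨0, 2155813236352, 0, 0⟩ v25; ok v86 && (
  let v87 := add v85 v86; ok v87 && (
  let v88 := cst ⟨0, 199257171840, 0, 0⟩; ok v88 && (
  let v89 := add v87 v88; ok v89 && (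
  let v90 := scale ⟨0, 787359671232, 0, 0⟩ v27; ok v90 && (
  let v91 := scale ⟨0, 2219922410048, 0, 0⟩ v25; ok v91 && (
  let v92 := add v90 v91; ok v92 && (
  let v93 := cst ⟨0, 62816648960, 0, 0⟩; ok v93 && (
  let v94 := add v92 v93; ok v94 && (
  let v95 := mul v81 v94; ok v95 && (
  let v96 := add v89 v95; ok v96 && (
  let v97 := mul v96 v84; ok v97 && (
  let v98 := scale ⟨961600, 0, 0, 0⟩ v74; ok v98 && (
  let v99 := cst ⟨0, 38336320, 0, 0⟩; ok v99 && (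
  let v100 := add v98 v99; ok v100 && (
  let v101 := mul v74 v100; ok v101 && (
  let v102 := add v101 v69; ok v102 && (
  let v103 := mul v74 v102; ok v103 && (
  let v104 := add v103 v64; ok v104 && (
  let v105 := mul v74 v104; ok v105 && (
  let v106 := add v97 v53; ok v106 && (
  let v107 := add v105 v106; ok v107 && (
  let v108 := mul v76 v107; ok v108 && (
  let v109 := neg v108; ok v109 && (
  let v110 := exp v109; ok v110 && (
  let v111 := sub v110 v18; ok v111 && (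
  let v112 := add v111 v18; ok v112 && (
  let v113 := mul v17 v112; ok v113 && (
  let v114 := add v113 v18; ok v114 && (
  isPos 3 v114 && (
  let v115 := mul v21 v111; ok v115 && (
  let v116 := add v115 v18; ok v116 && (
  isPos 3 v116 && (
  let v117 := log v116; ok v117 && (
  let v118 := add x2 v12; ok v118 && (
  let v119 := scale ⟨595263488, 0, 0, 0⟩ v27; ok v119 && (
  let v120 := scale ⟨1441792, 0, 0, 0⟩ v28; ok v120 && (
  let v121 := add v119 v120; ok v121 && (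
  let v122 := scale ⟨0, 196608, 0, 0⟩ v29; ok v122 && (
  let v123 := add v121 v122; ok v123 && (
  let v124 := scale ⟨19882967040, 0, 0, 0⟩ v25; ok v124 && (
  let v125 := add v123 v124; ok v125 && (
  let v126 := scale ⟨9044230144, 0, 0, 0⟩ v30; ok v126 && (
  let v127 := add v125 v126; ok v127 && (
  let v128 := cst ⟨89276350464, 0, 0, 0⟩; ok v128 && (
  let v129 := add v127 v128; ok v129 && (
  let v130 := scale ⟨3573412790272, 0, 0, 0⟩ v2; ok v130 && (
  let v131 := neg v130; ok v131 && (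
  let v132 := exp v131; ok v132 && (
  let v133 := mul v129 v132; ok v133 && (
  let v134 := scale ⟨659814350848, 0, 0, 0⟩ x2; ok v134 && (
  let v135 := add v134 x0; ok v135 && (
  isPos 3 v135 && (
  let v136 := inv v135; ok v136 && (
  let v137 := mul v118 v133; ok v137 && (
  let v138 := scale ⟨2199023255552, 0, 0, 0⟩ v137; ok v138 && (
  let v139 := mul v138 v136; ok v139 && (
  let v140 := mul v139 x3; ok v140 && (
  let v141 := sub v18 v140; ok v141 && (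
  isPos 3 v141 && (
  let v142 := log v141; ok v142 && (
  let v143 := mul v113 v140; ok v143 && (
  let v144 := add v143 v18; ok v144 && (
  isPos 3 v144 && (
  let v145 := log v144; ok v145 && (
  let v146 := sub v23 v71; ok v146 && (
  let v147 := add v146 v23; ok v147 && (
  let v148 := add v108 v145; ok v148 && (
  let v149 := sub v148 v142; ok v149 && (
  let v150 := mul v149 x0; ok v150 && (
  let v151 := add v2 v150; ok v151 && (
  let v152 := exp v151; ok v152 && (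
  let v153 := sub v152 v18; ok v153 && (
  let v154 := sub v108 v142; ok v154 && (
  let v155 := sub v154 v145; ok v155 && (
  let v156 := scale ⟨2199023255552, 0, 0, 0⟩ v117; ok v156 && (
  let v157 := add v155 v156; ok v157 && (
  let v158 := mul v157 x0; ok v158 && (
  let v159 := exp v158; ok v159 && (
  let v160 := sub v159 v18; ok v160 && (
  let v161 := add v73 v13; ok v161 && (
  let v162 := mul v153 v161; ok v162 && (
  let v163 := mul v146 v146; ok v163 && (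
  let v164 := scale ⟨2199023255552, 0, 0, 0⟩ v163; ok v164 && (
  let v165 := sub v162 v164; ok v165 && (
  let v166 := mul v13 v13; ok v166 && (
  let v167 := scale ⟨549755813888, 0, 0, 0⟩ v166; ok v167 && (
  let v168 := sub v165 v167; ok v168 && (
  let v169 := mul v13 v160; ok v169 && (
  let v170 := cst ⟨2199023255552, 0, 0, 0⟩; ok v170 && (
  let v171 := add v153 v170; ok v171 && (
  let v172 := mul v169 v171; ok v172 && (
  let v173 := add v168 v172; ok v173 && (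
  isPos 3 v147 && (
  let v174 := inv v147; ok v174 && (
  let v175 := mul v173 v174; ok v175 && (
  let v176 := mul v175 v174; ok v176 && (
  let v177 := add v176 v18; ok v177 && (
  isPos 3 v177 && (
  let v178 := log v177; ok v178 && (
  let v179 := scale ⟨549755813888, 0, 0, 0⟩ v178; ok v179 && (
  let v180 := exp v179; ok v180 && (
  let v181 := sub v180 v18; ok v181 && (
  let v182 := mul v147 v181; ok v182 && (
  let v183 := add v146 v182; ok v183 && (
  let v184 := mul v147 v7; ok v184 && (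
  isPos 3 v184 && (
  let v185 := log v184; ok v185 && (
  let v186 := add v185 v179; ok v186 && (
  let v187 := mul v186 v0; ok v187 && (
  isPos 3 v118 && (
  let v188 := inv v118; ok v188 && (
  let v189 := mul v7 v70; ok v189 && (
  let v190 := mul v188 v189; ok v190 && (
  let v191 := mul v190 v182; ok v191 && (
  let v192 := add v191 v18; ok v192 && (
  isPos 3 v192 && (
  let v193 := mul v6 v71; ok v193 && (
  let v194 := mul v193 v192; ok v194 && (
  let v195 := scale ⟨256500105216, 0, 0, 0⟩ v27; ok v195 && (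
  let v196 := scale ⟨136388214784, 0, 0, 0⟩ v28; ok v196 && (
  let v197 := add v195 v196; ok v197 && (
  let v198 := scale ⟨0, 98968862720, 0, 0⟩ v29; ok v198 && (
  let v199 := add v197 v198; ok v199 && (
  let v200 := scale ⟨14186678386688, 0, 0, 0⟩ v25; ok v200 && (
  let v201 := add v199 v200; ok v201 && (
  let v202 := scale ⟨7665243193344, 0, 0, 0⟩ v30; ok v202 && (
  let v203 := add v201 v202; ok v203 && (
  let v204 := cst ⟨1218630451200, 0, 0, 0⟩; ok v204 && (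
  let v205 := add v203 v204; ok v205 && (
  let v206 := scale ⟨3298534883328, 0, 0, 0⟩ v2; ok v206 && (
  let v207 := exp v206; ok v207 && (
  isPos 3 v205 && (
  isPos 3 v2 && (
  let v208 := inv v2; ok v208 && (
  let v209 := mul v12 v208; ok v209 && (
  let v210 := scale ⟨2199023255552, 0, 0, 0⟩ v209; ok v210 && (
  let v211 := mul v210 v191; ok v211 && (
  let v212 := mul v211 v207; ok v212 && (
  let v213 := inv v192; ok v213 && (
  let v214 := mul v190 v213; ok v214 && (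
  let v215 := inv v205; ok v215 && (
  let v216 := mul v207 v215; ok v216 && (
  let v217 := mul v214 v216; ok v217 && (
  let v218 := mul v212 v217; ok v218 && (
  isLt v218 1099510579200 && (
  let v219 := mul v14 v14; ok v219 && (
  let v220 := cst ⟨29662117888000, 0, 0, 0⟩; ok v220 && (
  let v221 := add v219 v220; ok v221 && (
  isPos 3 v221 && (
  let v222 := inv v221; ok v222 && (
  let v223 := mul v183 v0; ok v223 && (
  let v224 := mul v223 v223; ok v224 && (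
  let v225 := sub v224 v219; ok v225 && (
  let v226 := mul v225 v222; ok v226 && (
  isLt v226 1099510579200 && (
  let v227 := scale ⟨1099511627776, 0, 0, 0⟩ v133; ok v227 && (
  isPos 3 v227 && (
  let v228 := inv v227; ok v228 && (
  let v229 := scale ⟨13041664, 0, 0, 0⟩ v74; ok v229 && (
  let v230 := cst ⟨0, 433455104, 0, 0⟩; ok v230 && (
  let v231 := add v229 v230; ok v231 && (
  let v232 := mul v74 v231; ok v232 && (
  let v233 := scale ⟨1782579200, 0, 0, 0⟩ v27; ok v233 && (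
  let v234 := scale ⟨569334890496, 0, 0, 0⟩ v25; ok v234 && (
  let v235 := add v233 v234; ok v235 && (
  let v236 := cst ⟨40934506496, 0, 0, 0⟩; ok v236 && (
  let v237 := add v235 v236; ok v237 && (
  let v238 := add v232 v237; ok v238 && (
  let v239 := mul v74 v238; ok v239 && (
  let v240 := scale ⟨97785348096, 0, 0, 0⟩ v27; ok v240 && (
  let v241 := scale ⟨0, 48087302144, 0, 0⟩ v28; ok v241 && (
  let v242 := add v240 v241; ok v242 && (
  let v243 := scale ⟨3444845051904, 0, 0, 0⟩ v25; ok v243 && (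
  let v244 := add v242 v243; ok v244 && (
  let v245 := cst ⟨1234569068544, 0, 0, 0⟩; ok v245 && (
  let v246 := add v244 v245; ok v246 && (
  let v247 := add v239 v246; ok v247 && (
  let v248 := mul v135 v188; ok v248 && (
  let v249 := mul v248 v228; ok v249 && (
  let v250 := scale ⟨549755813888, 0, 0, 0⟩ v249; ok v250 && (
  let v251 := add v23 v183; ok v251 && (
  isPos 3 v251 && (
  let v252 := inv v251; ok v252 && (
  let v253 := mul v252 v252; ok v253 && (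
  let v254 := sub v18 v253; ok v254 && (
  let v255 := mul v254 v0; ok v255 && (
  let v256 := sub v8 v253; ok v256 && (
  let v257 := mul v256 v0; ok v257 && (
  let v258 := scale ⟨0, 16406775070720, 0, 0⟩ v25; ok v258 && (
  let v259 := cst ⟨0, 2187748966400, 0, 0⟩; ok v259 && (
  let v260 := add v258 v259; ok v260 && (
  let v261 := sub v255 v260; ok v261 && (
  isPos 3 v261 && (
  let v262 := inv v261; ok v262 && (
  let v263 := scale ⟨31362867265536, 0, 0, 0⟩ v262; ok v263 && (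
  let v264 := add v261 v263; ok v264 && (
  isPos 3 v264 && (
  let v265 := inv v264; ok v265 && (
  let v266 := scale ⟨0, 10383442304, 0, 0⟩ v27; ok v266 && (
  let v267 := scale ⟨0, 2155813236352, 0, 0⟩ v25; ok v267 && (
  let v268 := add v266 v267; ok v268 && (
  let v269 := cst ⟨0, 199257171840, 0, 0⟩; ok v269 && (
  let v270 := add v268 v269; ok v270 && (
  let v271 := scale ⟨0, 787359671232, 0, 0⟩ v27; ok v271 && (
  let v272 := scale ⟨0, 2219922410048, 0, 0⟩ v25; ok v272 && (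
  let v273 := add v271 v272; ok v273 && (
  let v274 := cst ⟨0, 62816648960, 0, 0⟩; ok v274 && (
  let v275 := add v273 v274; ok v275 && (
  let v276 := mul v262 v275; ok v276 && (
  let v277 := add v270 v276; ok v277 && (
  let v278 := mul v277 v265; ok v278 && (
  let v279 := scale ⟨961600, 0, 0, 0⟩ v255; ok v279 && (
  let v280 := cst ⟨0, 38336320, 0, 0⟩; ok v280 && (
  let v281 := add v279 v280; ok v281 && (
  let v282 := mul v255 v281; ok v282 && (
  let v283 := add v282 v69; ok v283 && (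
  let v284 := mul v255 v283; ok v284 && (
  let v285 := add v284 v64; ok v285 && (
  let v286 := mul v255 v285; ok v286 && (
  let v287 := add v278 v53; ok v287 && (
  let v288 := add v286 v287; ok v288 && (
  let v289 := mul v257 v288; ok v289 && (
  let v290 := neg v289; ok v290 && (
  let v291 := exp v290; ok v291 && (
  let v292 := sub v291 v18; ok v292 && (
  let v293 := add v292 v18; ok v293 && (
  let v294 := mul v17 v293; ok v294 && (
  let v295 := add v294 v18; ok v295 && (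
  isPos 3 v295 && (
  let v296 := mul v21 v292; ok v296 && (
  let v297 := add v296 v18; ok v297 && (
  isPos 3 v297 && (
  let v298 := log v297; ok v298 && (
  let v299 := scale ⟨549755813888, 0, 0, 0⟩ v183; ok v299 && (
  let v300 := add v299 x0; ok v300 && (
  isPos 3 v300 && (
  let v301 := inv v300; ok v301 && (
  let v302 := scale ⟨0, 577437696, 0, 0⟩ v27; ok v302 && (
  let v303 := scale ⟨1376256, 0, 0, 0⟩ v28; ok v303 && (
  let v304 := add v302 v303; ok v304 && (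
  let v305 := scale ⟨0, 196608, 0, 0⟩ v29; ok v305 && (
  let v306 := add v304 v305; ok v306 && (
  let v307 := scale ⟨0, 19291570176, 0, 0⟩ v25; ok v307 && (
  let v308 := add v306 v307; ok v308 && (
  let v309 := scale ⟨0, 8553431040, 0, 0⟩ v30; ok v309 && (
  let v310 := add v308 v309; ok v310 && (
  let v311 := cst ⟨86665527296, 0, 0, 0⟩; ok v311 && (
  let v312 := add v310 v311; ok v312 && (
  let v313 := scale ⟨5222680231936, 0, 0, 0⟩ v2; ok v313 && (
  let v314 := neg v313; ok v314 && (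
  let v315 := exp v314; ok v315 && (
  let v316 := mul v312 v315; ok v316 && (
  let v317 := scale ⟨1099511627776, 0, 0, 0⟩ v316; ok v317 && (
  let v318 := mul v317 v228; ok v318 && (
  let v319 := mul v318 v194; ok v319 && (
  let v320 := mul v135 v301; ok v320 && (
  let v321 := mul v319 v320; ok v321 && (
  let v322 := add v108 v117; ok v322 && (
  let v323 := sub v322 v298; ok v323 && (
  let v324 := sub v323 v187; ok v324 && (
  let v325 := exp v324; ok v325 && (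
  let v326 := cst ⟨0, 0, 0, 0⟩; ok v326 && (
  let v327 := mul v247 v325; ok v327 && (
  let v328 := mul v327 v294; ok v328 && (
  let v329 := mul v328 v321; ok v329 && (
  let v330 := rball v326 v329; ok v330 && (
  let v331 := sub v18 v247; ok v331 && (
  let v332 := mul x3 v331; ok v332 && (
  let v333 := sub v18 v325; ok v333 && (
  let v334 := scale ⟨1099511627776, 0, 0, 0⟩ v333; ok v334 && (
  let v335 := mul v334 v250; ok v335 && (
  let v336 := mul v247 v335; ok v336 && (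
  let v337 := add v332 v336; ok v337 && (
  let v338 := add v337 v330; ok v338 && (
  isLt v338 1099510579200 && (
  true)))))))))))))))))))))))))))))))))))))))))))))))))))))))))))))))))))))))))))))))))))))))))))))))))))))))))))))))))))))))))))))))))))))))))))))))))))))))))))))))))))))))))))))))))))))))))))))))))))))))))))))))))))))))))))))))))))))))))))))))))))))))))))))))))))))))))))))))))))))))))))))))))))))))))))))))))))))))))))))))))))))))))))))))))))))))))))))))))))))))))))))))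
  | _ => false

set_option maxRecDepth 1000000 in
theorem c2_2_eq (X : XOps) (m : List X.O.α)
    (h : c2_2 X.O.cst X.O.add X.O.sub X.O.mul X.O.scale X.O.neg X.O.inv X.O.exp X.O.log X.O.ok
      X.O.isPos X.O.isLt X.ball X.rball m = true) :
    runX X 3 p2_2 m = true := by
  match m, h with
  | [x0, x1, x2, x3], h => exact h

def p1_A2 : List Op := [
  .scale ⟨221037539098624, 0, 0, 0⟩ 0,
  .const ⟨0, 48578496036864, 0, 0⟩,
  .add 1 0,
  .mul 0 3,
  .const ⟨3190945742848, 0, 0, 0⟩,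
  .add 1 0,
  .mul 7 0,
  .const ⟨1979121139712, 0, 0, 0⟩,
  .add 1 0,
  .mul 9 0,
  .scale ⟨2199023255552, 0, 0, 0⟩ 0,
  .exp 1,
  .neg 2,
  .exp 0,
  .mul 0 0,
  .sub 3 1,
  .add 4 2,
  .mul 1 0,
  .scale ⟨549755813888, 0, 0, 0⟩ 0,
  .inv 19,
  .mul 1 0,
  .const ⟨1099511627776, 0, 0, 0⟩,
  .const ⟨73282879488, 0, 0, 0⟩,
  .sub 23 0,
  .const ⟨2448131358720, 0, 0, 0⟩,
  .sub 16 0,
  .mul 0 0,
  .mul 0 1,
  .mul 4 2,
  .scale ⟨550255132672, 0, 0, 0⟩ 3,
  .scale ⟨373905686528, 0, 0, 0⟩ 3,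
  .add 1 0,
  .scale ⟨0, 72504115200, 0, 0⟩ 4,
  .add 1 0,
  .scale ⟨29661055877120, 0, 0, 0⟩ 10,
  .add 1 0,
  .scale ⟨25751652270080, 0, 0, 0⟩ 7,
  .add 1 0,
  .const ⟨3083032985600, 0, 0, 0⟩,
  .add 1 0,
  .scale ⟨4398046511104, 0, 0, 0⟩ 29,
  .neg 0,
  .exp 0,
  .mul 32 3,
  .add 0 22,
  .mul 2 0,
  .sub 24 0,
  .inv 28,
  .mul 1 0,
  .mul 30 30,
  .mul 0 1,
  .add 5 29,
  .mul 52 54,
  .scale ⟨0, 0, 1099511627776, 0⟩ 0,
  .mul 0 2,
  .add 4 0,
  .mul 2 7,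
  .add 5 0,
  .inv 0,
  .mul 3 0]

set_option maxRecDepth 1000000 in
noncomputable def c_A2_0 {α : Type} (cst : Z → α) (add sub mul : α → α → α) (scale : Z → α → α)
    (neg inv exp log : α → α) (ok : α → Bool) (isPos : Nat → α → Bool) (isLt : α → Nat → Bool)
    (ball : Nat → α → α) (rball : α → α → α) : List α → Bool
  | [x0, x1, x2, x3] =>
  let v0 := scale ⟨221037539098624, 0, 0, 0⟩ x0; ok v0 && (
  let v1 := cst ⟨0, 48578496036864, 0, 0⟩; ok v1 && (
  let v2 := add v0 v1; ok v2 && (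
  let v3 := mul v2 x0; ok v3 && (
  let v4 := cst ⟨3190945742848, 0, 0, 0⟩; ok v4 && (
  let v5 := add v3 v4; ok v5 && (
  let v6 := mul x1 v5; ok v6 && (
  let v7 := cst ⟨1979121139712, 0, 0, 0⟩; ok v7 && (
  let v8 := add v6 v7; ok v8 && (
  let v9 := mul x0 v8; ok v9 && (
  let v10 := scale ⟨2199023255552, 0, 0, 0⟩ v9; ok v10 && (
  let v11 := exp v9; ok v11 && (
  let v12 := neg v9; ok v12 && (
  let v13 := exp v12; ok v13 && (
  let v14 := mul v13 v13; ok v14 && (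
  let v15 := sub v11 v13; ok v15 && (
  let v16 := add v11 v13; ok v16 && (
  let v17 := mul v15 v16; ok v17 && (
  let v18 := scale ⟨549755813888, 0, 0, 0⟩ v17; ok v18 && (
  let v19 := inv x0; ok v19 && (
  let v20 := mul v18 v19; ok v20 && (
  let v21 := cst ⟨1099511627776, 0, 0, 0⟩; ok v21 && (
  let v22 := cst ⟨73282879488, 0, 0, 0⟩; ok v22 && (
  let v23 := sub x0 v22; ok v23 && (
  let v24 := cst ⟨2448131358720, 0, 0, 0⟩; ok v24 && (
  let v25 := sub v8 v24; ok v25 && (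
  let v26 := mul v25 v25; ok v26 && (
  let v27 := mul v26 v25; ok v27 && (
  let v28 := mul v23 v25; ok v28 && (
  let v29 := scale ⟨550255132672, 0, 0, 0⟩ v25; ok v29 && (
  let v30 := scale ⟨373905686528, 0, 0, 0⟩ v26; ok v30 && (
  let v31 := add v29 v30; ok v31 && (
  let v32 := scale ⟨0, 72504115200, 0, 0⟩ v27; ok v32 && (
  let v33 := add v31 v32; ok v33 && (
  let v34 := scale ⟨29661055877120, 0, 0, 0⟩ v23; ok v34 && (
  let v35 := add v33 v34; ok v35 && (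
  let v36 := scale ⟨25751652270080, 0, 0, 0⟩ v28; ok v36 && (
  let v37 := add v35 v36; ok v37 && (
  let v38 := cst ⟨3083032985600, 0, 0, 0⟩; ok v38 && (
  let v39 := add v37 v38; ok v39 && (
  let v40 := scale ⟨4398046511104, 0, 0, 0⟩ v10; ok v40 && (
  let v41 := neg v40; ok v41 && (
  let v42 := exp v41; ok v42 && (
  let v43 := mul v10 v39; ok v43 && (
  let v44 := add v43 v21; ok v44 && (
  let v45 := mul v42 v44; ok v45 && (
  let v46 := sub v21 v45; ok v46 && (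
  let v47 := inv v18; ok v47 && (
  let v48 := mul v46 v47; ok v48 && (
  let v49 := mul v18 v18; ok v49 && (
  let v50 := mul v49 v48; ok v50 && (
  let v51 := add v45 v21; ok v51 && (
  let v52 := mul x0 x2; ok v52 && (
  let v53 := scale ⟨0, 0, 1099511627776, 0⟩ v52; ok v53 && (
  let v54 := mul v53 v51; ok v54 && (
  let v55 := add v50 v54; ok v55 && (
  let v56 := mul v53 v48; ok v56 && (
  let v57 := add v51 v56; ok v57 && (
  let v58 := inv v57; ok v58 && (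
  let v59 := mul v55 v58; ok v59 && (
  c2_2 cst add sub mul scale neg inv exp log ok isPos isLt ball rball [x0, v8, v59, x3]))))))))))))))))))))))))))))))))))))))))))))))))))))))))))))
  | _ => false

set_option maxRecDepth 1000000 in
theorem c_A2_0_eq (X : XOps) (m : List X.O.α)
    (h : c_A2_0 X.O.cst X.O.add X.O.sub X.O.mul X.O.scale X.O.neg X.O.inv X.O.exp X.O.log X.O.ok
      X.O.isPos X.O.isLt X.ball X.rball m = true) :
    runX X 3 (p1_A2 ++ reloc [60, 51, 0, 63] 64 0 p2_2) m = true := by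
  match m, h with
  | [x0, x1, x2, x3], h => exact share (c2_2_eq X) [x0, x1, x2, x3] (Nat.le_of_ble_eq_true rfl) h

def p_A2_1 : List Op := [
  .scale ⟨221037539098624, 0, 0, 0⟩ 0,
  .const ⟨0, 48578496036864, 0, 0⟩,
  .add 1 0,
  .mul 0 3,
  .const ⟨3190945742848, 0, 0, 0⟩,
  .add 1 0,
  .mul 7 0,
  .const ⟨1979121139712, 0, 0, 0⟩,
  .add 1 0,
  .mul 9 0,
  .scale ⟨2199023255552, 0, 0, 0⟩ 0,
  .exp 1,
  .neg 2,
  .exp 0,
  .mul 0 0,
  .sub 3 1,
  .add 4 2,
  .mul 1 0,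
  .scale ⟨549755813888, 0, 0, 0⟩ 0,
  .inv 19,
  .mul 1 0,
  .const ⟨1099511627776, 0, 0, 0⟩,
  .const ⟨73282879488, 0, 0, 0⟩,
  .sub 23 0,
  .const ⟨2448131358720, 0, 0, 0⟩,
  .sub 16 0,
  .mul 0 0,
  .mul 0 1,
  .mul 4 2,
  .scale ⟨550255132672, 0, 0, 0⟩ 3,
  .scale ⟨373905686528, 0, 0, 0⟩ 3,
  .add 1 0,
  .scale ⟨0, 72504115200, 0, 0⟩ 4,
  .add 1 0,
  .scale ⟨29661055877120, 0, 0, 0⟩ 10,
  .add 1 0,
  .scale ⟨25751652270080, 0, 0, 0⟩ 7,
  .add 1 0,
  .const ⟨3083032985600, 0, 0, 0⟩,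
  .add 1 0,
  .scale ⟨4398046511104, 0, 0, 0⟩ 29,
  .neg 0,
  .exp 0,
  .mul 32 3,
  .add 0 22,
  .mul 2 0,
  .sub 24 0,
  .inv 28,
  .mul 1 0,
  .mul 30 30,
  .mul 0 1,
  .add 5 29,
  .mul 52 54,
  .scale ⟨0, 0, 1099511627776, 0⟩ 0,
  .mul 0 2,
  .add 4 0,
  .mul 2 7,
  .add 5 0,
  .inv 0,
  .mul 3 0,
  .mul 41 41,
  .mul 61 61,
  .scale ⟨28960964476928, 0, 0, 0⟩ 0,
  .add 2 0,
  .mul 4 4,
  .sub 0 4,
  .inv 0,
  .mul 3 0,
  .lt 0 1099511627520]

set_option maxRecDepth 1000000 in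
noncomputable def c_A2_1 {α : Type} (cst : Z → α) (add sub mul : α → α → α) (scale : Z → α → α)
    (neg inv exp log : α → α) (ok : α → Bool) (isPos : Nat → α → Bool) (isLt : α → Nat → Bool)
    (ball : Nat → α → α) (rball : α → α → α) : List α → Bool
  | [x0, x1, x2, x3] =>
  let v0 := scale ⟨221037539098624, 0, 0, 0⟩ x0; ok v0 && (
  let v1 := cst ⟨0, 48578496036864, 0, 0⟩; ok v1 && (
  let v2 := add v0 v1; ok v2 && (
  let v3 := mul v2 x0; ok v3 && (
  let v4 := cst ⟨3190945742848, 0, 0, 0⟩; ok v4 && (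
  let v5 := add v3 v4; ok v5 && (
  let v6 := mul x1 v5; ok v6 && (
  let v7 := cst ⟨1979121139712, 0, 0, 0⟩; ok v7 && (
  let v8 := add v6 v7; ok v8 && (
  let v9 := mul x0 v8; ok v9 && (
  let v10 := scale ⟨2199023255552, 0, 0, 0⟩ v9; ok v10 && (
  let v11 := exp v9; ok v11 && (
  let v12 := neg v9; ok v12 && (
  let v13 := exp v12; ok v13 && (
  let v14 := mul v13 v13; ok v14 && (
  let v15 := sub v11 v13; ok v15 && (
  let v16 := add v11 v13; ok v16 && (
  let v17 := mul v15 v16; ok v17 && (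
  let v18 := scale ⟨549755813888, 0, 0, 0⟩ v17; ok v18 && (
  let v19 := inv x0; ok v19 && (
  let v20 := mul v18 v19; ok v20 && (
  let v21 := cst ⟨1099511627776, 0, 0, 0⟩; ok v21 && (
  let v22 := cst ⟨73282879488, 0, 0, 0⟩; ok v22 && (
  let v23 := sub x0 v22; ok v23 && (
  let v24 := cst ⟨2448131358720, 0, 0, 0⟩; ok v24 && (
  let v25 := sub v8 v24; ok v25 && (
  let v26 := mul v25 v25; ok v26 && (
  let v27 := mul v26 v25; ok v27 && (
  let v28 := mul v23 v25; ok v28 && (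
  let v29 := scale ⟨550255132672, 0, 0, 0⟩ v25; ok v29 && (
  let v30 := scale ⟨373905686528, 0, 0, 0⟩ v26; ok v30 && (
  let v31 := add v29 v30; ok v31 && (
  let v32 := scale ⟨0, 72504115200, 0, 0⟩ v27; ok v32 && (
  let v33 := add v31 v32; ok v33 && (
  let v34 := scale ⟨29661055877120, 0, 0, 0⟩ v23; ok v34 && (
  let v35 := add v33 v34; ok v35 && (
  let v36 := scale ⟨25751652270080, 0, 0, 0⟩ v28; ok v36 && (
  let v37 := add v35 v36; ok v37 && (
  let v38 := cst ⟨3083032985600, 0, 0, 0⟩; ok v38 && (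
  let v39 := add v37 v38; ok v39 && (
  let v40 := scale ⟨4398046511104, 0, 0, 0⟩ v10; ok v40 && (
  let v41 := neg v40; ok v41 && (
  let v42 := exp v41; ok v42 && (
  let v43 := mul v10 v39; ok v43 && (
  let v44 := add v43 v21; ok v44 && (
  let v45 := mul v42 v44; ok v45 && (
  let v46 := sub v21 v45; ok v46 && (
  let v47 := inv v18; ok v47 && (
  let v48 := mul v46 v47; ok v48 && (
  let v49 := mul v18 v18; ok v49 && (
  let v50 := mul v49 v48; ok v50 && (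
  let v51 := add v45 v21; ok v51 && (
  let v52 := mul x0 x2; ok v52 && (
  let v53 := scale ⟨0, 0, 1099511627776, 0⟩ v52; ok v53 && (
  let v54 := mul v53 v51; ok v54 && (
  let v55 := add v50 v54; ok v55 && (
  let v56 := mul v53 v48; ok v56 && (
  let v57 := add v51 v56; ok v57 && (
  let v58 := inv v57; ok v58 && (
  let v59 := mul v55 v58; ok v59 && (
  let v60 := mul v18 v18; ok v60 && (
  let v61 := mul x0 x0; ok v61 && (
  let v62 := scale ⟨28960964476928, 0, 0, 0⟩ v61; ok v62 && (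
  let v63 := add v60 v62; ok v63 && (
  let v64 := mul v59 v59; ok v64 && (
  let v65 := sub v64 v60; ok v65 && (
  let v66 := inv v65; ok v66 && (
  let v67 := mul v63 v66; ok v67 && (
  isLt v67 1099511627520 && (
  true)))))))))))))))))))))))))))))))))))))))))))))))))))))))))))))))))))))
  | _ => false

set_option maxRecDepth 1000000 in
theorem c_A2_1_eq (X : XOps) (m : List X.O.α)
    (h : c_A2_1 X.O.cst X.O.add X.O.sub X.O.mul X.O.scale X.O.neg X.O.inv X.O.exp X.O.log X.O.ok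
      X.O.isPos X.O.isLt X.ball X.rball m = true) :
    runX X 3 p_A2_1 m = true := by
  match m, h with
  | [x0, x1, x2, x3], h => exact h

abbrev gA2 : List (List Op) := [(p1_A2 ++ reloc [60, 51, 0, 63] 64 0 p2_2), p_A2_1]

noncomputable abbrev kA2 : List (List xE.O.α → Bool) := [c_A2_0 xE.O.cst xE.O.add xE.O.sub xE.O.mul xE.O.scale xE.O.neg xE.O.inv xE.O.exp xE.O.log xE.O.ok
      xE.O.isPos xE.O.isLt xE.ball xE.rball, c_A2_1 xE.O.cst xE.O.add xE.O.sub xE.O.mul xE.O.scale xE.O.neg xE.O.inv xE.O.exp xE.O.log xE.O.ok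
      xE.O.isPos xE.O.isLt xE.ball xE.rball]

theorem kA2_eq : List.Forall₂ (fun (ops : List Op) (chk : List xE.O.α → Bool) =>
    ∀ m, chk m = true → runX xE 3 ops m = true) gA2 kA2 :=
  List.Forall₂.cons (c_A2_0_eq xE) (List.Forall₂.cons (c_A2_1_eq xE) List.Forall₂.nil)

theorem gA2_eq : gA2 = [circ (chA tab 2) (P2m tab 2), altP (chA tab 2) (outCut tab 2)] := by decide +kernel

def p1_B2 : List Op := [
  .scale ⟨221037539098624, 0, 0, 0⟩ 0,
  .const ⟨0, 48578496036864, 0, 0⟩,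
  .add 1 0,
  .mul 0 3,
  .const ⟨3190945742848, 0, 0, 0⟩,
  .add 1 0,
  .mul 7 0,
  .const ⟨1979121139712, 0, 0, 0⟩,
  .add 1 0,
  .mul 9 0,
  .scale ⟨2199023255552, 0, 0, 0⟩ 0,
  .exp 1,
  .neg 2,
  .exp 0,
  .mul 0 0,
  .sub 3 1,
  .add 4 2,
  .mul 1 0,
  .scale ⟨549755813888, 0, 0, 0⟩ 0,
  .inv 19,
  .mul 1 0,
  .const ⟨1099511627776, 0, 0, 0⟩,
  .const ⟨73282879488, 0, 0, 0⟩,
  .sub 23 0,
  .const ⟨2448131358720, 0, 0, 0⟩,
  .sub 16 0,
  .mul 0 0,
  .mul 0 1,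
  .mul 4 2,
  .scale ⟨550255132672, 0, 0, 0⟩ 3,
  .scale ⟨373905686528, 0, 0, 0⟩ 3,
  .add 1 0,
  .scale ⟨0, 72504115200, 0, 0⟩ 4,
  .add 1 0,
  .scale ⟨29661055877120, 0, 0, 0⟩ 10,
  .add 1 0,
  .scale ⟨25751652270080, 0, 0, 0⟩ 7,
  .add 1 0,
  .const ⟨3083032985600, 0, 0, 0⟩,
  .add 1 0,
  .scale ⟨4398046511104, 0, 0, 0⟩ 29,
  .neg 0,
  .exp 0,
  .mul 32 3,
  .add 0 22,
  .mul 2 0,
  .sub 24 0,
  .inv 28,
  .mul 1 0,
  .mul 30 30,
  .mul 0 1,
  .add 5 29,
  .mul 1 54,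
  .mul 53 1,
  .scale ⟨0, 0, 1099511627776, 0⟩ 0,
  .add 2 0,
  .mul 4 58,
  .mul 57 8,
  .scale ⟨0, 0, 1099511627776, 0⟩ 0,
  .add 2 0,
  .inv 0,
  .mul 5 0]

set_option maxRecDepth 1000000 in
noncomputable def c_B2_0 {α : Type} (cst : Z → α) (add sub mul : α → α → α) (scale : Z → α → α)
    (neg inv exp log : α → α) (ok : α → Bool) (isPos : Nat → α → Bool) (isLt : α → Nat → Bool)
    (ball : Nat → α → α) (rball : α → α → α) : List α → Bool
  | [x0, x1, x2, x3] =>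
  let v0 := scale ⟨221037539098624, 0, 0, 0⟩ x0; ok v0 && (
  let v1 := cst ⟨0, 48578496036864, 0, 0⟩; ok v1 && (
  let v2 := add v0 v1; ok v2 && (
  let v3 := mul v2 x0; ok v3 && (
  let v4 := cst ⟨3190945742848, 0, 0, 0⟩; ok v4 && (
  let v5 := add v3 v4; ok v5 && (
  let v6 := mul x1 v5; ok v6 && (
  let v7 := cst ⟨1979121139712, 0, 0, 0⟩; ok v7 && (
  let v8 := add v6 v7; ok v8 && (
  let v9 := mul x0 v8; ok v9 && (
  let v10 := scale ⟨2199023255552, 0, 0, 0⟩ v9; ok v10 && (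
  let v11 := exp v9; ok v11 && (
  let v12 := neg v9; ok v12 && (
  let v13 := exp v12; ok v13 && (
  let v14 := mul v13 v13; ok v14 && (
  let v15 := sub v11 v13; ok v15 && (
  let v16 := add v11 v13; ok v16 && (
  let v17 := mul v15 v16; ok v17 && (
  let v18 := scale ⟨549755813888, 0, 0, 0⟩ v17; ok v18 && (
  let v19 := inv x0; ok v19 && (
  let v20 := mul v18 v19; ok v20 && (
  let v21 := cst ⟨1099511627776, 0, 0, 0⟩; ok v21 && (
  let v22 := cst ⟨73282879488, 0, 0, 0⟩; ok v22 && (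
  let v23 := sub x0 v22; ok v23 && (
  let v24 := cst ⟨2448131358720, 0, 0, 0⟩; ok v24 && (
  let v25 := sub v8 v24; ok v25 && (
  let v26 := mul v25 v25; ok v26 && (
  let v27 := mul v26 v25; ok v27 && (
  let v28 := mul v23 v25; ok v28 && (
  let v29 := scale ⟨550255132672, 0, 0, 0⟩ v25; ok v29 && (
  let v30 := scale ⟨373905686528, 0, 0, 0⟩ v26; ok v30 && (
  let v31 := add v29 v30; ok v31 && (
  let v32 := scale ⟨0, 72504115200, 0, 0⟩ v27; ok v32 && (
  let v33 := add v31 v32; ok v33 && (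
  let v34 := scale ⟨29661055877120, 0, 0, 0⟩ v23; ok v34 && (
  let v35 := add v33 v34; ok v35 && (
  let v36 := scale ⟨25751652270080, 0, 0, 0⟩ v28; ok v36 && (
  let v37 := add v35 v36; ok v37 && (
  let v38 := cst ⟨3083032985600, 0, 0, 0⟩; ok v38 && (
  let v39 := add v37 v38; ok v39 && (
  let v40 := scale ⟨4398046511104, 0, 0, 0⟩ v10; ok v40 && (
  let v41 := neg v40; ok v41 && (
  let v42 := exp v41; ok v42 && (
  let v43 := mul v10 v39; ok v43 && (
  let v44 := add v43 v21; ok v44 && (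
  let v45 := mul v42 v44; ok v45 && (
  let v46 := sub v21 v45; ok v46 && (
  let v47 := inv v18; ok v47 && (
  let v48 := mul v46 v47; ok v48 && (
  let v49 := mul v18 v18; ok v49 && (
  let v50 := mul v49 v48; ok v50 && (
  let v51 := add v45 v21; ok v51 && (
  let v52 := mul v50 x2; ok v52 && (
  let v53 := mul x0 v51; ok v53 && (
  let v54 := scale ⟨0, 0, 1099511627776, 0⟩ v53; ok v54 && (
  let v55 := add v52 v54; ok v55 && (
  let v56 := mul v51 x2; ok v56 && (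
  let v57 := mul x0 v48; ok v57 && (
  let v58 := scale ⟨0, 0, 1099511627776, 0⟩ v57; ok v58 && (
  let v59 := add v56 v58; ok v59 && (
  let v60 := inv v59; ok v60 && (
  let v61 := mul v55 v60; ok v61 && (
  c2_2 cst add sub mul scale neg inv exp log ok isPos isLt ball rball [x0, v8, v61, x3]))))))))))))))))))))))))))))))))))))))))))))))))))))))))))))))
  | _ => false

set_option maxRecDepth 1000000 in
theorem c_B2_0_eq (X : XOps) (m : List X.O.α)
    (h : c_B2_0 X.O.cst X.O.add X.O.sub X.O.mul X.O.scale X.O.neg X.O.inv X.O.exp X.O.log X.O.ok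
      X.O.isPos X.O.isLt X.ball X.rball m = true) :
    runX X 3 (p1_B2 ++ reloc [62, 53, 0, 65] 66 0 p2_2) m = true := by
  match m, h with
  | [x0, x1, x2, x3], h => exact share (c2_2_eq X) [x0, x1, x2, x3] (Nat.le_of_ble_eq_true rfl) h

def p_B2_1 : List Op := [
  .scale ⟨221037539098624, 0, 0, 0⟩ 0,
  .const ⟨0, 48578496036864, 0, 0⟩,
  .add 1 0,
  .mul 0 3,
  .const ⟨3190945742848, 0, 0, 0⟩,
  .add 1 0,
  .mul 7 0,
  .const ⟨1979121139712, 0, 0, 0⟩,
  .add 1 0,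
  .mul 9 0,
  .scale ⟨2199023255552, 0, 0, 0⟩ 0,
  .exp 1,
  .neg 2,
  .exp 0,
  .mul 0 0,
  .sub 3 1,
  .add 4 2,
  .mul 1 0,
  .scale ⟨549755813888, 0, 0, 0⟩ 0,
  .inv 19,
  .mul 1 0,
  .const ⟨1099511627776, 0, 0, 0⟩,
  .const ⟨73282879488, 0, 0, 0⟩,
  .sub 23 0,
  .const ⟨2448131358720, 0, 0, 0⟩,
  .sub 16 0,
  .mul 0 0,
  .mul 0 1,
  .mul 4 2,
  .scale ⟨550255132672, 0, 0, 0⟩ 3,
  .scale ⟨373905686528, 0, 0, 0⟩ 3,
  .add 1 0,
  .scale ⟨0, 72504115200, 0, 0⟩ 4,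
  .add 1 0,
  .scale ⟨29661055877120, 0, 0, 0⟩ 10,
  .add 1 0,
  .scale ⟨25751652270080, 0, 0, 0⟩ 7,
  .add 1 0,
  .const ⟨3083032985600, 0, 0, 0⟩,
  .add 1 0,
  .scale ⟨4398046511104, 0, 0, 0⟩ 29,
  .neg 0,
  .exp 0,
  .mul 32 3,
  .add 0 22,
  .mul 2 0,
  .sub 24 0,
  .inv 28,
  .mul 1 0,
  .mul 30 30,
  .mul 0 1,
  .add 5 29,
  .mul 1 54,
  .mul 53 1,
  .scale ⟨0, 0, 1099511627776, 0⟩ 0,
  .add 2 0,
  .mul 4 58,
  .mul 57 8,
  .scale ⟨0, 0, 1099511627776, 0⟩ 0,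
  .add 2 0,
  .inv 0,
  .mul 5 0,
  .mul 43 43,
  .mul 63 63,
  .scale ⟨28960964476928, 0, 0, 0⟩ 0,
  .add 2 0,
  .mul 4 4,
  .sub 0 4,
  .inv 0,
  .mul 3 0,
  .lt 0 1099511627520]

set_option maxRecDepth 1000000 in
noncomputable def c_B2_1 {α : Type} (cst : Z → α) (add sub mul : α → α → α) (scale : Z → α → α)
    (neg inv exp log : α → α) (ok : α → Bool) (isPos : Nat → α → Bool) (isLt : α → Nat → Bool)
    (ball : Nat → α → α) (rball : α → α → α) : List α → Bool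
  | [x0, x1, x2, x3] =>
  let v0 := scale ⟨221037539098624, 0, 0, 0⟩ x0; ok v0 && (
  let v1 := cst ⟨0, 48578496036864, 0, 0⟩; ok v1 && (
  let v2 := add v0 v1; ok v2 && (
  let v3 := mul v2 x0; ok v3 && (
  let v4 := cst ⟨3190945742848, 0, 0, 0⟩; ok v4 && (
  let v5 := add v3 v4; ok v5 && (
  let v6 := mul x1 v5; ok v6 && (
  let v7 := cst ⟨1979121139712, 0, 0, 0⟩; ok v7 && (
  let v8 := add v6 v7; ok v8 && (
  let v9 := mul x0 v8; ok v9 && (
  let v10 := scale ⟨2199023255552, 0, 0, 0⟩ v9; ok v10 && (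
  let v11 := exp v9; ok v11 && (
  let v12 := neg v9; ok v12 && (
  let v13 := exp v12; ok v13 && (
  let v14 := mul v13 v13; ok v14 && (
  let v15 := sub v11 v13; ok v15 && (
  let v16 := add v11 v13; ok v16 && (
  let v17 := mul v15 v16; ok v17 && (
  let v18 := scale ⟨549755813888, 0, 0, 0⟩ v17; ok v18 && (
  let v19 := inv x0; ok v19 && (
  let v20 := mul v18 v19; ok v20 && (
  let v21 := cst ⟨1099511627776, 0, 0, 0⟩; ok v21 && (
  let v22 := cst ⟨73282879488, 0, 0, 0⟩; ok v22 && (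
  let v23 := sub x0 v22; ok v23 && (
  let v24 := cst ⟨2448131358720, 0, 0, 0⟩; ok v24 && (
  let v25 := sub v8 v24; ok v25 && (
  let v26 := mul v25 v25; ok v26 && (
  let v27 := mul v26 v25; ok v27 && (
  let v28 := mul v23 v25; ok v28 && (
  let v29 := scale ⟨550255132672, 0, 0, 0⟩ v25; ok v29 && (
  let v30 := scale ⟨373905686528, 0, 0, 0⟩ v26; ok v30 && (
  let v31 := add v29 v30; ok v31 && (
  let v32 := scale ⟨0, 72504115200, 0, 0⟩ v27; ok v32 && (
  let v33 := add v31 v32; ok v33 && (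
  let v34 := scale ⟨29661055877120, 0, 0, 0⟩ v23; ok v34 && (
  let v35 := add v33 v34; ok v35 && (
  let v36 := scale ⟨25751652270080, 0, 0, 0⟩ v28; ok v36 && (
  let v37 := add v35 v36; ok v37 && (
  let v38 := cst ⟨3083032985600, 0, 0, 0⟩; ok v38 && (
  let v39 := add v37 v38; ok v39 && (
  let v40 := scale ⟨4398046511104, 0, 0, 0⟩ v10; ok v40 && (
  let v41 := neg v40; ok v41 && (
  let v42 := exp v41; ok v42 && (
  let v43 := mul v10 v39; ok v43 && (
  let v44 := add v43 v21; ok v44 && (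
  let v45 := mul v42 v44; ok v45 && (
  let v46 := sub v21 v45; ok v46 && (
  let v47 := inv v18; ok v47 && (
  let v48 := mul v46 v47; ok v48 && (
  let v49 := mul v18 v18; ok v49 && (
  let v50 := mul v49 v48; ok v50 && (
  let v51 := add v45 v21; ok v51 && (
  let v52 := mul v50 x2; ok v52 && (
  let v53 := mul x0 v51; ok v53 && (
  let v54 := scale ⟨0, 0, 1099511627776, 0⟩ v53; ok v54 && (
  let v55 := add v52 v54; ok v55 && (
  let v56 := mul v51 x2; ok v56 && (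
  let v57 := mul x0 v48; ok v57 && (
  let v58 := scale ⟨0, 0, 1099511627776, 0⟩ v57; ok v58 && (
  let v59 := add v56 v58; ok v59 && (
  let v60 := inv v59; ok v60 && (
  let v61 := mul v55 v60; ok v61 && (
  let v62 := mul v18 v18; ok v62 && (
  let v63 := mul x0 x0; ok v63 && (
  let v64 := scale ⟨28960964476928, 0, 0, 0⟩ v63; ok v64 && (
  let v65 := add v62 v64; ok v65 && (
  let v66 := mul v61 v61; ok v66 && (
  let v67 := sub v66 v62; ok v67 && (
  let v68 := inv v67; ok v68 && (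
  let v69 := mul v65 v68; ok v69 && (
  isLt v69 1099511627520 && (
  true)))))))))))))))))))))))))))))))))))))))))))))))))))))))))))))))))))))))
  | _ => false

set_option maxRecDepth 1000000 in
theorem c_B2_1_eq (X : XOps) (m : List X.O.α)
    (h : c_B2_1 X.O.cst X.O.add X.O.sub X.O.mul X.O.scale X.O.neg X.O.inv X.O.exp X.O.log X.O.ok
      X.O.isPos X.O.isLt X.ball X.rball m = true) :
    runX X 3 p_B2_1 m = true := by
  match m, h with
  | [x0, x1, x2, x3], h => exact h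

abbrev gB2 : List (List Op) := [(p1_B2 ++ reloc [62, 53, 0, 65] 66 0 p2_2), p_B2_1]

noncomputable abbrev kB2 : List (List xE.O.α → Bool) := [c_B2_0 xE.O.cst xE.O.add xE.O.sub xE.O.mul xE.O.scale xE.O.neg xE.O.inv xE.O.exp xE.O.log xE.O.ok
      xE.O.isPos xE.O.isLt xE.ball xE.rball, c_B2_1 xE.O.cst xE.O.add xE.O.sub xE.O.mul xE.O.scale xE.O.neg xE.O.inv xE.O.exp xE.O.log xE.O.ok
      xE.O.isPos xE.O.isLt xE.ball xE.rball]

theorem kB2_eq : List.Forall₂ (fun (ops : List Op) (chk : List xE.O.α → Bool) =>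
    ∀ m, chk m = true → runX xE 3 ops m = true) gB2 kB2 :=
  List.Forall₂.cons (c_B2_0_eq xE) (List.Forall₂.cons (c_B2_1_eq xE) List.Forall₂.nil)

theorem gB2_eq : gB2 = [circ (chB tab 2) (P2m tab 2), altP (chB tab 2) (outCut tab 2)] := by decide +kernel

def p1_D2 : List Op := [
  .scale ⟨221037539098624, 0, 0, 0⟩ 0,
  .const ⟨0, 48578496036864, 0, 0⟩,
  .add 1 0,
  .mul 0 3,
  .const ⟨3190945742848, 0, 0, 0⟩,
  .add 1 0,
  .mul 7 0,
  .const ⟨1979121139712, 0, 0, 0⟩,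
  .add 1 0,
  .mul 9 0,
  .scale ⟨2199023255552, 0, 0, 0⟩ 0,
  .exp 1,
  .neg 2,
  .exp 0,
  .mul 0 0,
  .sub 3 1,
  .add 4 2,
  .mul 1 0,
  .scale ⟨549755813888, 0, 0, 0⟩ 0,
  .inv 19,
  .mul 1 0,
  .const ⟨1099511627776, 0, 0, 0⟩,
  .mul 1 1,
  .const ⟨28960964476928, 0, 0, 0⟩,
  .add 1 0,
  .scale ⟨0, 0, 1099511627776, 0⟩ 27,
  .exp 0,
  .mul 2 0,
  .add 5 0,
  .log 0,
  .scale ⟨549755813888, 0, 0, 0⟩ 0,
  .exp 0,
  .mul 0 32]

set_option maxRecDepth 1000000 in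
noncomputable def c_D2_0 {α : Type} (cst : Z → α) (add sub mul : α → α → α) (scale : Z → α → α)
    (neg inv exp log : α → α) (ok : α → Bool) (isPos : Nat → α → Bool) (isLt : α → Nat → Bool)
    (ball : Nat → α → α) (rball : α → α → α) : List α → Bool
  | [x0, x1, x2, x3] =>
  let v0 := scale ⟨221037539098624, 0, 0, 0⟩ x0; ok v0 && (
  let v1 := cst ⟨0, 48578496036864, 0, 0⟩; ok v1 && (
  let v2 := add v0 v1; ok v2 && (
  let v3 := mul v2 x0; ok v3 && (
  let v4 := cst ⟨3190945742848, 0, 0, 0⟩; ok v4 && (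
  let v5 := add v3 v4; ok v5 && (
  let v6 := mul x1 v5; ok v6 && (
  let v7 := cst ⟨1979121139712, 0, 0, 0⟩; ok v7 && (
  let v8 := add v6 v7; ok v8 && (
  let v9 := mul x0 v8; ok v9 && (
  let v10 := scale ⟨2199023255552, 0, 0, 0⟩ v9; ok v10 && (
  let v11 := exp v9; ok v11 && (
  let v12 := neg v9; ok v12 && (
  let v13 := exp v12; ok v13 && (
  let v14 := mul v13 v13; ok v14 && (
  let v15 := sub v11 v13; ok v15 && (
  let v16 := add v11 v13; ok v16 && (
  let v17 := mul v15 v16; ok v17 && (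
  let v18 := scale ⟨549755813888, 0, 0, 0⟩ v17; ok v18 && (
  let v19 := inv x0; ok v19 && (
  let v20 := mul v18 v19; ok v20 && (
  let v21 := cst ⟨1099511627776, 0, 0, 0⟩; ok v21 && (
  let v22 := mul v20 v20; ok v22 && (
  let v23 := cst ⟨28960964476928, 0, 0, 0⟩; ok v23 && (
  let v24 := add v22 v23; ok v24 && (
  let v25 := scale ⟨0, 0, 1099511627776, 0⟩ x2; ok v25 && (
  let v26 := exp v25; ok v26 && (
  let v27 := mul v24 v26; ok v27 && (
  let v28 := add v22 v27; ok v28 && (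
  let v29 := log v28; ok v29 && (
  let v30 := scale ⟨549755813888, 0, 0, 0⟩ v29; ok v30 && (
  let v31 := exp v30; ok v31 && (
  let v32 := mul v31 x0; ok v32 && (
  c2_2 cst add sub mul scale neg inv exp log ok isPos isLt ball rball [x0, v8, v32, x3])))))))))))))))))))))))))))))))))
  | _ => false

set_option maxRecDepth 1000000 in
theorem c_D2_0_eq (X : XOps) (m : List X.O.α)
    (h : c_D2_0 X.O.cst X.O.add X.O.sub X.O.mul X.O.scale X.O.neg X.O.inv X.O.exp X.O.log X.O.ok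
      X.O.isPos X.O.isLt X.ball X.rball m = true) :
    runX X 3 (p1_D2 ++ reloc [33, 24, 0, 36] 37 0 p2_2) m = true := by
  match m, h with
  | [x0, x1, x2, x3], h => exact share (c2_2_eq X) [x0, x1, x2, x3] (Nat.le_of_ble_eq_true rfl) h

def p_D2_1 : List Op := [
  .scale ⟨221037539098624, 0, 0, 0⟩ 0,
  .const ⟨0, 48578496036864, 0, 0⟩,
  .add 1 0,
  .mul 0 3,
  .const ⟨3190945742848, 0, 0, 0⟩,
  .add 1 0,
  .mul 7 0,
  .const ⟨1979121139712, 0, 0, 0⟩,
  .add 1 0,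
  .mul 9 0,
  .scale ⟨2199023255552, 0, 0, 0⟩ 0,
  .exp 1,
  .neg 2,
  .exp 0,
  .mul 0 0,
  .sub 3 1,
  .add 4 2,
  .mul 1 0,
  .scale ⟨549755813888, 0, 0, 0⟩ 0,
  .inv 19,
  .mul 1 0,
  .const ⟨1099511627776, 0, 0, 0⟩,
  .mul 1 1,
  .const ⟨28960964476928, 0, 0, 0⟩,
  .add 1 0,
  .scale ⟨0, 0, 1099511627776, 0⟩ 27,
  .exp 0,
  .mul 2 0,
  .add 5 0,
  .log 0,
  .scale ⟨549755813888, 0, 0, 0⟩ 0,
  .exp 0,
  .mul 0 32,
  .const ⟨73282879488, 0, 0, 0⟩,
  .sub 34 0,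
  .const ⟨2448131358720, 0, 0, 0⟩,
  .sub 27 0,
  .mul 0 0,
  .mul 0 1,
  .mul 4 2,
  .scale ⟨550255132672, 0, 0, 0⟩ 3,
  .scale ⟨373905686528, 0, 0, 0⟩ 3,
  .add 1 0,
  .scale ⟨0, 72504115200, 0, 0⟩ 4,
  .add 1 0,
  .scale ⟨29661055877120, 0, 0, 0⟩ 10,
  .add 1 0,
  .scale ⟨25751652270080, 0, 0, 0⟩ 7,
  .add 1 0,
  .const ⟨3083032985600, 0, 0, 0⟩,
  .add 1 0,
  .scale ⟨4398046511104, 0, 0, 0⟩ 40,
  .neg 0,
  .exp 0,
  .mul 43 3,
  .add 0 33,
  .mul 2 0,
  .sub 35 0,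
  .inv 39,
  .mul 1 0,
  .scale ⟨2199023255552, 0, 0, 0⟩ 3,
  .add 4 39,
  .mul 2 0,
  .mul 0 30,
  .mul 7 7,
  .add 0 43,
  .sub 2 0,
  .inv 0,
  .mul 7 0,
  .lt 0 1099511627520]

set_option maxRecDepth 1000000 in
noncomputable def c_D2_1 {α : Type} (cst : Z → α) (add sub mul : α → α → α) (scale : Z → α → α)
    (neg inv exp log : α → α) (ok : α → Bool) (isPos : Nat → α → Bool) (isLt : α → Nat → Bool)
    (ball : Nat → α → α) (rball : α → α → α) : List α → Bool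
  | [x0, x1, x2, x3] =>
  let v0 := scale ⟨221037539098624, 0, 0, 0⟩ x0; ok v0 && (
  let v1 := cst ⟨0, 48578496036864, 0, 0⟩; ok v1 && (
  let v2 := add v0 v1; ok v2 && (
  let v3 := mul v2 x0; ok v3 && (
  let v4 := cst ⟨3190945742848, 0, 0, 0⟩; ok v4 && (
  let v5 := add v3 v4; ok v5 && (
  let v6 := mul x1 v5; ok v6 && (
  let v7 := cst ⟨1979121139712, 0, 0, 0⟩; ok v7 && (
  let v8 := add v6 v7; ok v8 && (
  let v9 := mul x0 v8; ok v9 && (
  let v10 := scale ⟨2199023255552, 0, 0, 0⟩ v9; ok v10 && (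
  let v11 := exp v9; ok v11 && (
  let v12 := neg v9; ok v12 && (
  let v13 := exp v12; ok v13 && (
  let v14 := mul v13 v13; ok v14 && (
  let v15 := sub v11 v13; ok v15 && (
  let v16 := add v11 v13; ok v16 && (
  let v17 := mul v15 v16; ok v17 && (
  let v18 := scale ⟨549755813888, 0, 0, 0⟩ v17; ok v18 && (
  let v19 := inv x0; ok v19 && (
  let v20 := mul v18 v19; ok v20 && (
  let v21 := cst ⟨1099511627776, 0, 0, 0⟩; ok v21 && (
  let v22 := mul v20 v20; ok v22 && (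
  let v23 := cst ⟨28960964476928, 0, 0, 0⟩; ok v23 && (
  let v24 := add v22 v23; ok v24 && (
  let v25 := scale ⟨0, 0, 1099511627776, 0⟩ x2; ok v25 && (
  let v26 := exp v25; ok v26 && (
  let v27 := mul v24 v26; ok v27 && (
  let v28 := add v22 v27; ok v28 && (
  let v29 := log v28; ok v29 && (
  let v30 := scale ⟨549755813888, 0, 0, 0⟩ v29; ok v30 && (
  let v31 := exp v30; ok v31 && (
  let v32 := mul v31 x0; ok v32 && (
  let v33 := cst ⟨73282879488, 0, 0, 0⟩; ok v33 && (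
  let v34 := sub x0 v33; ok v34 && (
  let v35 := cst ⟨2448131358720, 0, 0, 0⟩; ok v35 && (
  let v36 := sub v8 v35; ok v36 && (
  let v37 := mul v36 v36; ok v37 && (
  let v38 := mul v37 v36; ok v38 && (
  let v39 := mul v34 v36; ok v39 && (
  let v40 := scale ⟨550255132672, 0, 0, 0⟩ v36; ok v40 && (
  let v41 := scale ⟨373905686528, 0, 0, 0⟩ v37; ok v41 && (
  let v42 := add v40 v41; ok v42 && (
  let v43 := scale ⟨0, 72504115200, 0, 0⟩ v38; ok v43 && (
  let v44 := add v42 v43; ok v44 && (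
  let v45 := scale ⟨29661055877120, 0, 0, 0⟩ v34; ok v45 && (
  let v46 := add v44 v45; ok v46 && (
  let v47 := scale ⟨25751652270080, 0, 0, 0⟩ v39; ok v47 && (
  let v48 := add v46 v47; ok v48 && (
  let v49 := cst ⟨3083032985600, 0, 0, 0⟩; ok v49 && (
  let v50 := add v48 v49; ok v50 && (
  let v51 := scale ⟨4398046511104, 0, 0, 0⟩ v10; ok v51 && (
  let v52 := neg v51; ok v52 && (
  let v53 := exp v52; ok v53 && (
  let v54 := mul v10 v50; ok v54 && (
  let v55 := add v54 v21; ok v55 && (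
  let v56 := mul v53 v55; ok v56 && (
  let v57 := sub v21 v56; ok v57 && (
  let v58 := inv v18; ok v58 && (
  let v59 := mul v57 v58; ok v59 && (
  let v60 := scale ⟨2199023255552, 0, 0, 0⟩ v56; ok v60 && (
  let v61 := add v56 v21; ok v61 && (
  let v62 := mul v59 v61; ok v62 && (
  let v63 := mul v62 v32; ok v63 && (
  let v64 := mul v56 v56; ok v64 && (
  let v65 := add v64 v21; ok v65 && (
  let v66 := sub v63 v65; ok v66 && (
  let v67 := inv v66; ok v67 && (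
  let v68 := mul v60 v67; ok v68 && (
  isLt v68 1099511627520 && (
  true))))))))))))))))))))))))))))))))))))))))))))))))))))))))))))))))))))))
  | _ => false

set_option maxRecDepth 1000000 in
theorem c_D2_1_eq (X : XOps) (m : List X.O.α)
    (h : c_D2_1 X.O.cst X.O.add X.O.sub X.O.mul X.O.scale X.O.neg X.O.inv X.O.exp X.O.log X.O.ok
      X.O.isPos X.O.isLt X.ball X.rball m = true) :
    runX X 3 p_D2_1 m = true := by
  match m, h with
  | [x0, x1, x2, x3], h => exact h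

abbrev gD2 : List (List Op) := [(p1_D2 ++ reloc [33, 24, 0, 36] 37 0 p2_2), p_D2_1]

noncomputable abbrev kD2 : List (List xE.O.α → Bool) := [c_D2_0 xE.O.cst xE.O.add xE.O.sub xE.O.mul xE.O.scale xE.O.neg xE.O.inv xE.O.exp xE.O.log xE.O.ok
      xE.O.isPos xE.O.isLt xE.ball xE.rball, c_D2_1 xE.O.cst xE.O.add xE.O.sub xE.O.mul xE.O.scale xE.O.neg xE.O.inv xE.O.exp xE.O.log xE.O.ok
      xE.O.isPos xE.O.isLt xE.ball xE.rball]

theorem kD2_eq : List.Forall₂ (fun (ops : List Op) (chk : List xE.O.α → Bool) =>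
    ∀ m, chk m = true → runX xE 3 ops m = true) gD2 kD2 :=
  List.Forall₂.cons (c_D2_0_eq xE) (List.Forall₂.cons (c_D2_1_eq xE) List.Forall₂.nil)

theorem gD2_eq : gD2 = [circ (chD tab 2) (P2m tab 2), altP (chD tab 2) (outDisc tab 2)] := by decide +kernel

def p1_E2 : List Op := [
  .scale ⟨221037539098624, 0, 0, 0⟩ 0,
  .const ⟨0, 48578496036864, 0, 0⟩,
  .add 1 0,
  .mul 0 3,
  .const ⟨3190945742848, 0, 0, 0⟩,
  .add 1 0,
  .mul 7 0,
  .const ⟨1979121139712, 0, 0, 0⟩,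
  .add 1 0,
  .mul 9 0,
  .scale ⟨2199023255552, 0, 0, 0⟩ 0,
  .exp 1,
  .neg 2,
  .exp 0,
  .mul 0 0,
  .sub 3 1,
  .add 4 2,
  .mul 1 0,
  .scale ⟨549755813888, 0, 0, 0⟩ 0,
  .inv 19,
  .mul 1 0,
  .const ⟨1099511627776, 0, 0, 0⟩,
  .mul 1 1,
  .const ⟨28960964476928, 0, 0, 0⟩,
  .add 1 0,
  .scale ⟨0, 0, 0, 1099511627776⟩ 27,
  .exp 0,
  .mul 2 0,
  .sub 0 5,
  .log 0,
  .scale ⟨549755813888, 0, 0, 0⟩ 0,
  .exp 0,
  .scale ⟨0, 0, 1099511627776, 0⟩ 0,
  .mul 0 33]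

set_option maxRecDepth 1000000 in
noncomputable def c_E2_0 {α : Type} (cst : Z → α) (add sub mul : α → α → α) (scale : Z → α → α)
    (neg inv exp log : α → α) (ok : α → Bool) (isPos : Nat → α → Bool) (isLt : α → Nat → Bool)
    (ball : Nat → α → α) (rball : α → α → α) : List α → Bool
  | [x0, x1, x2, x3] =>
  let v0 := scale ⟨221037539098624, 0, 0, 0⟩ x0; ok v0 && (
  let v1 := cst ⟨0, 48578496036864, 0, 0⟩; ok v1 && (
  let v2 := add v0 v1; ok v2 && (
  let v3 := mul v2 x0; ok v3 && (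
  let v4 := cst ⟨3190945742848, 0, 0, 0⟩; ok v4 && (
  let v5 := add v3 v4; ok v5 && (
  let v6 := mul x1 v5; ok v6 && (
  let v7 := cst ⟨1979121139712, 0, 0, 0⟩; ok v7 && (
  let v8 := add v6 v7; ok v8 && (
  let v9 := mul x0 v8; ok v9 && (
  let v10 := scale ⟨2199023255552, 0, 0, 0⟩ v9; ok v10 && (
  let v11 := exp v9; ok v11 && (
  let v12 := neg v9; ok v12 && (
  let v13 := exp v12; ok v13 && (
  let v14 := mul v13 v13; ok v14 && (
  let v15 := sub v11 v13; ok v15 && (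
  let v16 := add v11 v13; ok v16 && (
  let v17 := mul v15 v16; ok v17 && (
  let v18 := scale ⟨549755813888, 0, 0, 0⟩ v17; ok v18 && (
  let v19 := inv x0; ok v19 && (
  let v20 := mul v18 v19; ok v20 && (
  let v21 := cst ⟨1099511627776, 0, 0, 0⟩; ok v21 && (
  let v22 := mul v20 v20; ok v22 && (
  let v23 := cst ⟨28960964476928, 0, 0, 0⟩; ok v23 && (
  let v24 := add v22 v23; ok v24 && (
  let v25 := scale ⟨0, 0, 0, 1099511627776⟩ x2; ok v25 && (
  let v26 := exp v25; ok v26 && (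
  let v27 := mul v24 v26; ok v27 && (
  let v28 := sub v27 v22; ok v28 && (
  let v29 := log v28; ok v29 && (
  let v30 := scale ⟨549755813888, 0, 0, 0⟩ v29; ok v30 && (
  let v31 := exp v30; ok v31 && (
  let v32 := scale ⟨0, 0, 1099511627776, 0⟩ v31; ok v32 && (
  let v33 := mul v32 x0; ok v33 && (
  c2_2 cst add sub mul scale neg inv exp log ok isPos isLt ball rball [x0, v8, v33, x3]))))))))))))))))))))))))))))))))))
  | _ => false

set_option maxRecDepth 1000000 in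
theorem c_E2_0_eq (X : XOps) (m : List X.O.α)
    (h : c_E2_0 X.O.cst X.O.add X.O.sub X.O.mul X.O.scale X.O.neg X.O.inv X.O.exp X.O.log X.O.ok
      X.O.isPos X.O.isLt X.ball X.rball m = true) :
    runX X 3 (p1_E2 ++ reloc [34, 25, 0, 37] 38 0 p2_2) m = true := by
  match m, h with
  | [x0, x1, x2, x3], h => exact share (c2_2_eq X) [x0, x1, x2, x3] (Nat.le_of_ble_eq_true rfl) h

def p_E2_1 : List Op := [
  .scale ⟨221037539098624, 0, 0, 0⟩ 0,
  .const ⟨0, 48578496036864, 0, 0⟩,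
  .add 1 0,
  .mul 0 3,
  .const ⟨3190945742848, 0, 0, 0⟩,
  .add 1 0,
  .mul 7 0,
  .const ⟨1979121139712, 0, 0, 0⟩,
  .add 1 0,
  .mul 9 0,
  .scale ⟨2199023255552, 0, 0, 0⟩ 0,
  .exp 1,
  .neg 2,
  .exp 0,
  .mul 0 0,
  .sub 3 1,
  .add 4 2,
  .mul 1 0,
  .scale ⟨549755813888, 0, 0, 0⟩ 0,
  .inv 19,
  .mul 1 0,
  .const ⟨1099511627776, 0, 0, 0⟩,
  .mul 1 1,
  .const ⟨28960964476928, 0, 0, 0⟩,
  .add 1 0,
  .scale ⟨0, 0, 0, 1099511627776⟩ 27,
  .exp 0,
  .mul 2 0,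
  .sub 0 5,
  .log 0,
  .scale ⟨549755813888, 0, 0, 0⟩ 0,
  .exp 0,
  .scale ⟨0, 0, 1099511627776, 0⟩ 0,
  .mul 0 33,
  .const ⟨73282879488, 0, 0, 0⟩,
  .sub 35 0,
  .const ⟨2448131358720, 0, 0, 0⟩,
  .sub 28 0,
  .mul 0 0,
  .mul 0 1,
  .mul 4 2,
  .scale ⟨550255132672, 0, 0, 0⟩ 3,
  .scale ⟨373905686528, 0, 0, 0⟩ 3,
  .add 1 0,
  .scale ⟨0, 72504115200, 0, 0⟩ 4,
  .add 1 0,
  .scale ⟨29661055877120, 0, 0, 0⟩ 10,
  .add 1 0,
  .scale ⟨25751652270080, 0, 0, 0⟩ 7,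
  .add 1 0,
  .const ⟨3083032985600, 0, 0, 0⟩,
  .add 1 0,
  .scale ⟨4398046511104, 0, 0, 0⟩ 41,
  .neg 0,
  .exp 0,
  .mul 44 3,
  .add 0 34,
  .mul 2 0,
  .sub 36 0,
  .inv 40,
  .mul 1 0,
  .scale ⟨2199023255552, 0, 0, 0⟩ 3,
  .add 4 40,
  .mul 2 0,
  .mul 0 30,
  .mul 7 7,
  .add 0 44,
  .sub 2 0,
  .inv 0,
  .mul 7 0,
  .lt 0 1099511627520]

set_option maxRecDepth 1000000 in
noncomputable def c_E2_1 {α : Type} (cst : Z → α) (add sub mul : α → α → α) (scale : Z → α → α)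
    (neg inv exp log : α → α) (ok : α → Bool) (isPos : Nat → α → Bool) (isLt : α → Nat → Bool)
    (ball : Nat → α → α) (rball : α → α → α) : List α → Bool
  | [x0, x1, x2, x3] =>
  let v0 := scale ⟨221037539098624, 0, 0, 0⟩ x0; ok v0 && (
  let v1 := cst ⟨0, 48578496036864, 0, 0⟩; ok v1 && (
  let v2 := add v0 v1; ok v2 && (
  let v3 := mul v2 x0; ok v3 && (
  let v4 := cst ⟨3190945742848, 0, 0, 0⟩; ok v4 && (
  let v5 := add v3 v4; ok v5 && (
  let v6 := mul x1 v5; ok v6 && (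
  let v7 := cst ⟨1979121139712, 0, 0, 0⟩; ok v7 && (
  let v8 := add v6 v7; ok v8 && (
  let v9 := mul x0 v8; ok v9 && (
  let v10 := scale ⟨2199023255552, 0, 0, 0⟩ v9; ok v10 && (
  let v11 := exp v9; ok v11 && (
  let v12 := neg v9; ok v12 && (
  let v13 := exp v12; ok v13 && (
  let v14 := mul v13 v13; ok v14 && (
  let v15 := sub v11 v13; ok v15 && (
  let v16 := add v11 v13; ok v16 && (
  let v17 := mul v15 v16; ok v17 && (
  let v18 := scale ⟨549755813888, 0, 0, 0⟩ v17; ok v18 && (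
  let v19 := inv x0; ok v19 && (
  let v20 := mul v18 v19; ok v20 && (
  let v21 := cst ⟨1099511627776, 0, 0, 0⟩; ok v21 && (
  let v22 := mul v20 v20; ok v22 && (
  let v23 := cst ⟨28960964476928, 0, 0, 0⟩; ok v23 && (
  let v24 := add v22 v23; ok v24 && (
  let v25 := scale ⟨0, 0, 0, 1099511627776⟩ x2; ok v25 && (
  let v26 := exp v25; ok v26 && (
  let v27 := mul v24 v26; ok v27 && (
  let v28 := sub v27 v22; ok v28 && (
  let v29 := log v28; ok v29 && (
  let v30 := scale ⟨549755813888, 0, 0, 0⟩ v29; ok v30 && (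
  let v31 := exp v30; ok v31 && (
  let v32 := scale ⟨0, 0, 1099511627776, 0⟩ v31; ok v32 && (
  let v33 := mul v32 x0; ok v33 && (
  let v34 := cst ⟨73282879488, 0, 0, 0⟩; ok v34 && (
  let v35 := sub x0 v34; ok v35 && (
  let v36 := cst ⟨2448131358720, 0, 0, 0⟩; ok v36 && (
  let v37 := sub v8 v36; ok v37 && (
  let v38 := mul v37 v37; ok v38 && (
  let v39 := mul v38 v37; ok v39 && (
  let v40 := mul v35 v37; ok v40 && (
  let v41 := scale ⟨550255132672, 0, 0, 0⟩ v37; ok v41 && (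
  let v42 := scale ⟨373905686528, 0, 0, 0⟩ v38; ok v42 && (
  let v43 := add v41 v42; ok v43 && (
  let v44 := scale ⟨0, 72504115200, 0, 0⟩ v39; ok v44 && (
  let v45 := add v43 v44; ok v45 && (
  let v46 := scale ⟨29661055877120, 0, 0, 0⟩ v35; ok v46 && (
  let v47 := add v45 v46; ok v47 && (
  let v48 := scale ⟨25751652270080, 0, 0, 0⟩ v40; ok v48 && (
  let v49 := add v47 v48; ok v49 && (
  let v50 := cst ⟨3083032985600, 0, 0, 0⟩; ok v50 && (
  let v51 := add v49 v50; ok v51 && (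
  let v52 := scale ⟨4398046511104, 0, 0, 0⟩ v10; ok v52 && (
  let v53 := neg v52; ok v53 && (
  let v54 := exp v53; ok v54 && (
  let v55 := mul v10 v51; ok v55 && (
  let v56 := add v55 v21; ok v56 && (
  let v57 := mul v54 v56; ok v57 && (
  let v58 := sub v21 v57; ok v58 && (
  let v59 := inv v18; ok v59 && (
  let v60 := mul v58 v59; ok v60 && (
  let v61 := scale ⟨2199023255552, 0, 0, 0⟩ v57; ok v61 && (
  let v62 := add v57 v21; ok v62 && (
  let v63 := mul v60 v62; ok v63 && (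
  let v64 := mul v63 v33; ok v64 && (
  let v65 := mul v57 v57; ok v65 && (
  let v66 := add v65 v21; ok v66 && (
  let v67 := sub v64 v66; ok v67 && (
  let v68 := inv v67; ok v68 && (
  let v69 := mul v61 v68; ok v69 && (
  isLt v69 1099511627520 && (
  true)))))))))))))))))))))))))))))))))))))))))))))))))))))))))))))))))))))))
  | _ => false

set_option maxRecDepth 1000000 in
theorem c_E2_1_eq (X : XOps) (m : List X.O.α)
    (h : c_E2_1 X.O.cst X.O.add X.O.sub X.O.mul X.O.scale X.O.neg X.O.inv X.O.exp X.O.log X.O.ok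
      X.O.isPos X.O.isLt X.ball X.rball m = true) :
    runX X 3 p_E2_1 m = true := by
  match m, h with
  | [x0, x1, x2, x3], h => exact h

def p_E2_2 : List Op := [
  .scale ⟨221037539098624, 0, 0, 0⟩ 0,
  .const ⟨0, 48578496036864, 0, 0⟩,
  .add 1 0,
  .mul 0 3,
  .const ⟨3190945742848, 0, 0, 0⟩,
  .add 1 0,
  .mul 7 0,
  .const ⟨1979121139712, 0, 0, 0⟩,
  .add 1 0,
  .mul 9 0,
  .scale ⟨2199023255552, 0, 0, 0⟩ 0,
  .exp 1,
  .neg 2,
  .exp 0,
  .mul 0 0,
  .sub 3 1,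
  .add 4 2,
  .mul 1 0,
  .scale ⟨549755813888, 0, 0, 0⟩ 0,
  .inv 19,
  .mul 1 0,
  .const ⟨1099511627776, 0, 0, 0⟩,
  .const ⟨73282879488, 0, 0, 0⟩,
  .sub 23 0,
  .const ⟨2448131358720, 0, 0, 0⟩,
  .sub 16 0,
  .mul 0 0,
  .mul 0 1,
  .mul 4 2,
  .scale ⟨550255132672, 0, 0, 0⟩ 3,
  .scale ⟨373905686528, 0, 0, 0⟩ 3,
  .add 1 0,
  .scale ⟨0, 72504115200, 0, 0⟩ 4,
  .add 1 0,
  .scale ⟨29661055877120, 0, 0, 0⟩ 10,
  .add 1 0,
  .scale ⟨25751652270080, 0, 0, 0⟩ 7,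
  .add 1 0,
  .const ⟨3083032985600, 0, 0, 0⟩,
  .add 1 0,
  .scale ⟨4398046511104, 0, 0, 0⟩ 29,
  .neg 0,
  .exp 0,
  .mul 32 3,
  .add 0 22,
  .mul 2 0,
  .sub 24 0,
  .inv 28,
  .mul 1 0,
  .mul 28 28,
  .const ⟨28960964476928, 0, 0, 0⟩,
  .add 1 0,
  .scale ⟨0, 0, 0, 1099511627776⟩ 54,
  .exp 0,
  .mul 2 0,
  .sub 5 0,
  .add 10 34,
  .mul 7 8,
  .mul 0 58,
  .inv 0,
  .mul 3 0,
  .mul 0 0,
  .mul 6 0,
  .lt 0 1099511627520]

set_option maxRecDepth 1000000 in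
noncomputable def c_E2_2 {α : Type} (cst : Z → α) (add sub mul : α → α → α) (scale : Z → α → α)
    (neg inv exp log : α → α) (ok : α → Bool) (isPos : Nat → α → Bool) (isLt : α → Nat → Bool)
    (ball : Nat → α → α) (rball : α → α → α) : List α → Bool
  | [x0, x1, x2, x3] =>
  let v0 := scale ⟨221037539098624, 0, 0, 0⟩ x0; ok v0 && (
  let v1 := cst ⟨0, 48578496036864, 0, 0⟩; ok v1 && (
  let v2 := add v0 v1; ok v2 && (
  let v3 := mul v2 x0; ok v3 && (
  let v4 := cst ⟨3190945742848, 0, 0, 0⟩; ok v4 && (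
  let v5 := add v3 v4; ok v5 && (
  let v6 := mul x1 v5; ok v6 && (
  let v7 := cst ⟨1979121139712, 0, 0, 0⟩; ok v7 && (
  let v8 := add v6 v7; ok v8 && (
  let v9 := mul x0 v8; ok v9 && (
  let v10 := scale ⟨2199023255552, 0, 0, 0⟩ v9; ok v10 && (
  let v11 := exp v9; ok v11 && (
  let v12 := neg v9; ok v12 && (
  let v13 := exp v12; ok v13 && (
  let v14 := mul v13 v13; ok v14 && (
  let v15 := sub v11 v13; ok v15 && (
  let v16 := add v11 v13; ok v16 && (
  let v17 := mul v15 v16; ok v17 && (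
  let v18 := scale ⟨549755813888, 0, 0, 0⟩ v17; ok v18 && (
  let v19 := inv x0; ok v19 && (
  let v20 := mul v18 v19; ok v20 && (
  let v21 := cst ⟨1099511627776, 0, 0, 0⟩; ok v21 && (
  let v22 := cst ⟨73282879488, 0, 0, 0⟩; ok v22 && (
  let v23 := sub x0 v22; ok v23 && (
  let v24 := cst ⟨2448131358720, 0, 0, 0⟩; ok v24 && (
  let v25 := sub v8 v24; ok v25 && (
  let v26 := mul v25 v25; ok v26 && (
  let v27 := mul v26 v25; ok v27 && (
  let v28 := mul v23 v25; ok v28 && (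
  let v29 := scale ⟨550255132672, 0, 0, 0⟩ v25; ok v29 && (
  let v30 := scale ⟨373905686528, 0, 0, 0⟩ v26; ok v30 && (
  let v31 := add v29 v30; ok v31 && (
  let v32 := scale ⟨0, 72504115200, 0, 0⟩ v27; ok v32 && (
  let v33 := add v31 v32; ok v33 && (
  let v34 := scale ⟨29661055877120, 0, 0, 0⟩ v23; ok v34 && (
  let v35 := add v33 v34; ok v35 && (
  let v36 := scale ⟨25751652270080, 0, 0, 0⟩ v28; ok v36 && (
  let v37 := add v35 v36; ok v37 && (
  let v38 := cst ⟨3083032985600, 0, 0, 0⟩; ok v38 && (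
  let v39 := add v37 v38; ok v39 && (
  let v40 := scale ⟨4398046511104, 0, 0, 0⟩ v10; ok v40 && (
  let v41 := neg v40; ok v41 && (
  let v42 := exp v41; ok v42 && (
  let v43 := mul v10 v39; ok v43 && (
  let v44 := add v43 v21; ok v44 && (
  let v45 := mul v42 v44; ok v45 && (
  let v46 := sub v21 v45; ok v46 && (
  let v47 := inv v18; ok v47 && (
  let v48 := mul v46 v47; ok v48 && (
  let v49 := mul v20 v20; ok v49 && (
  let v50 := cst ⟨28960964476928, 0, 0, 0⟩; ok v50 && (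
  let v51 := add v49 v50; ok v51 && (
  let v52 := scale ⟨0, 0, 0, 1099511627776⟩ x2; ok v52 && (
  let v53 := exp v52; ok v53 && (
  let v54 := mul v51 v53; ok v54 && (
  let v55 := sub v49 v54; ok v55 && (
  let v56 := add v45 v21; ok v56 && (
  let v57 := mul v49 v48; ok v57 && (
  let v58 := mul v57 x0; ok v58 && (
  let v59 := inv v58; ok v59 && (
  let v60 := mul v56 v59; ok v60 && (
  let v61 := mul v60 v60; ok v61 && (
  let v62 := mul v55 v61; ok v62 && (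
  isLt v62 1099511627520 && (
  true))))))))))))))))))))))))))))))))))))))))))))))))))))))))))))))))
  | _ => false

set_option maxRecDepth 1000000 in
theorem c_E2_2_eq (X : XOps) (m : List X.O.α)
    (h : c_E2_2 X.O.cst X.O.add X.O.sub X.O.mul X.O.scale X.O.neg X.O.inv X.O.exp X.O.log X.O.ok
      X.O.isPos X.O.isLt X.ball X.rball m = true) :
    runX X 3 p_E2_2 m = true := by
  match m, h with
  | [x0, x1, x2, x3], h => exact h

abbrev gE2 : List (List Op) := [(p1_E2 ++ reloc [34, 25, 0, 37] 38 0 p2_2), p_E2_1, p_E2_2]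

noncomputable abbrev kE2 : List (List xE.O.α → Bool) := [c_E2_0 xE.O.cst xE.O.add xE.O.sub xE.O.mul xE.O.scale xE.O.neg xE.O.inv xE.O.exp xE.O.log xE.O.ok
      xE.O.isPos xE.O.isLt xE.ball xE.rball, c_E2_1 xE.O.cst xE.O.add xE.O.sub xE.O.mul xE.O.scale xE.O.neg xE.O.inv xE.O.exp xE.O.log xE.O.ok
      xE.O.isPos xE.O.isLt xE.ball xE.rball, c_E2_2 xE.O.cst xE.O.add xE.O.sub xE.O.mul xE.O.scale xE.O.neg xE.O.inv xE.O.exp xE.O.log xE.O.ok
      xE.O.isPos xE.O.isLt xE.ball xE.rball]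

theorem kE2_eq : List.Forall₂ (fun (ops : List Op) (chk : List xE.O.α → Bool) =>
    ∀ m, chk m = true → runX xE 3 ops m = true) gE2 kE2 :=
  List.Forall₂.cons (c_E2_0_eq xE) (List.Forall₂.cons (c_E2_1_eq xE) (List.Forall₂.cons (c_E2_2_eq xE) List.Forall₂.nil))

theorem gE2_eq : gE2 = [circ (chE tab 2) (P2m tab 2), altP (chE tab 2) (outDisc tab 2), altL tab 2] := by decide +kernel

end Pool.Agent.helper14.NR.E12e
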