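import Pool.Agent.helper63.NF.Cert

/-!
Generated: table E12e.
-/

namespace Pool.Agent.helper14.NR.E12e

open Pool.Agent.helper63.NF

def tab : TD where
  strip := false
  bm := some (221037539098624, -48578496036864, 3190945742848, 1979121139712)
  ec := 73282879488
  bc := 2448131358720
  H := [[[59475561216, 19730499072, 1839910208, 586531008], [611108671296, 11652582336, 78638049600], [311579116096, -61858872192], [-10957237711296]], [[-8548353728, -1546686144, 1223488], [-62016264192, 6458025472], [-292898214080]], [[610872192, 42561152], [-1550935936]], [[-38336320]], [[961600]]]
  pol := some ⟨-2187748966400, -16406775070720, 5872294035456, 31362867265536, [[-199257171840, -10383442304], [-2155813236352, 0]], [[-62816648960, -787359671232], [-2219922410048, 0]]⟩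
  a := [[[211499483136, 55146708992, 248197414912, -121173442560], [1552400580608, 9700715331584]], [[88616140800, 295370752, 327680, -65536], [9866706944, 4459724800]], [[89276350464, 595263488, 1441792, -196608], [19882967040, 9044230144]], [[86665527296, -577437696, 1376256, -196608], [-19291570176, -8553431040]], [[87310729216, -290914304, 327680, -65536], [-9718857728, -4337041408]], [[87960911872, 0, 0, 0], [0, 0]]]
  j := [2473901162496, 1786706395136, 3573412790272, 5222680231936, 7009386627072, 8796093022208]
  c := [879662989312, 879662989312, 659814350848, 549755813888, 439697276928, 329907175424]
  M := [[[[1230079852544, 150084452352, 10545594368], [4194872066048, 3489036304384], [31927106994176]], [[281021644800, -26457538560], [4273125130240]], [[17470455808, 7594049536], [-639584305152]], [[6659047424]], [[10604511232]], [[-9623175168]]], [[[1231677620224, 95711330304, -46031306752], [3280232251392]], [[41760849920, 2524643328], [615293190144]], [[-502726656]], [[19136512]]], [[[1234569068544, 97785348096, -48087302144], [3444845051904]], [[40934506496, 1782579200], [569334890496]], [[-433455104]], [[13041664]]], [[[1235673481216, 97534607360, -46024097792], [3577917800448]], [[40521498624, 1545666560], [545434763264]],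 [[-402653184]], [[11141120]]], [[[1235959283712, 99907207168, -45163347968], [3497501655040]], [[40143880192, 1106378752], [557961445376]], [[-336003072]], [[8257536]]], [[[1222144557056, 157694558208, -16189620224], [1129746792448]], [[39874658304, -7438860288], [937573023744]], [[187170816]], [[-22347776]]]]
  l0 := [[[3509143237184, -384176169920, -83792142080], [-7541142789760, -5182823984128], [28061093472448]], [[448869813376, 167202161920, 96911182912], [-8723984789440, 4100943924480], [-22321986792896]], [[431692863232, 128665717696, -92298754688], [-3316698436672, -4837343419648], [-19146041095488]], [[41787053696, -466735902336], [-14284316461184]], [[-149695306944, 371044741632], [4431590850624]], [[-2709644160, -189909695360], [-3518204852224]], [[80286585216]], [[-273860861568]], [[201231378048]], [[-141023447872]]]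
  q0 := [[705326734720, 322005143744, -38808579904, -3457447552], [9569391612672, 2358054729600, -1035013415680], [-31461797435840, -22310038052224], [35110048074496]]
  t := [[[1747445809152, 95780536320, 297534357504, -54480470016], [12117687992320, 13815627317248]], [[1335587176448, 454474596352, 76371329024, -18023645184], [17543367884800, 11936024952832]], [[1218630451200, 256500105216, 136388214784, -98968862720], [14186678386688, 7665243193344]], [[1074799837184, 119200612352, 138633150464, -165896388608], [9919094652928, 3671924473856]], [[963257892864, 33200406528, 93328310272, -56679268352], [7715673931776, 3296937115648]], [[955254439936, 41090875392, 32031113216, 49374494720], [8650775068672, 5187817832448]]]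
  y := [22153441312768, 28960964476928, 29662117888000, 23891829325824, 15636902182912, 8100308320256]
  sc := [0, 0, 0, 0, 0, 0]
  L := [(0, 2), (0, 3), (1, 1), (1, 2), (2, 0), (2, 1), (3, 0)]
  Lt := [(0, 2), (0, 3), (1, 1)]
  far := 1
  x2 := 10775213113344
  B1 := 659706347520
  C2 := 1327712154624
  f1 := 769658138624
  f2 := 0
  f3 := 0
  is1 := 8796093022208
  s1 := 137438953472

end Pool.Agent.helper14.NR.E12e
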